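import Pool.Agent.Q98.PosC

/-!
# Images of words which avoid the inverse of a generator

If `φ` is an automorphism of a free group of finite rank, `v` is a word in which the letter `a⁻¹`
does not occur and `W` is a cyclically reduced word which represents `φ v`, then some turn is
missing in `W`.
-/

set_option autoImplicit false

namespace Pool.Agent.Q98.Block

open FreeGroup List
open Pool.Agent.Q98.Pos

variable {α : Type*} [DecidableEq α]

/-- the effect of the multiplication by a letter on the right -/
theorem toWord_mul_letter (y : FreeGroup α) (s : α × Bool) :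
    (∃ T, y.toWord = T ++ [(s.1, !s.2)] ∧ (y * mk [s]).toWord = T) ∨
      (y * mk [s]).toWord = y.toWord ++ [s] := by
  rcases Classical.em (IsReduced (y.toWord ++ [s])) with h | h
  · right
    rw [← toWord_mk_red h, ← mul_mk, mk_toWord]
  · left
    have h1 : IsReduced y.toWord := isReduced_toWord
    rw [reduced_append] at h
    have h2 : ¬ ∀ a ∈ y.toWord.getLast?, ∀ b ∈ ([s] : List (α × Bool)).head?,
        a.1 = b.1 → a.2 = b.2 := fun h3 => h ⟨h1, by simp, h3⟩
    push Not at h2
    obtain ⟨a, ha, b, hb, h3, h4⟩ := h2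
    have hb' : b = s := by simpa using hb.symm
    subst hb'
    have hne : y.toWord ≠ [] := by
      intro h0; rw [h0] at ha; simp at ha
    have ha2 : y.toWord = y.toWord.dropLast ++ [a] := by
      have := List.dropLast_append_getLast hne
      rw [List.getLast?_eq_some_getLast hne] at ha
      simp only [Option.mem_def, Option.some.injEq] at ha
      rw [ha] at this
      exact this.symm
    have hab : a = (b.1, !b.2) := by
      refine Prod.ext h3 ?_
      revert h4
      cases a.2 <;> cases b.2 <;> simp
    refine ⟨y.toWord.dropLast, by rw [← hab]; exact ha2, ?_⟩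
    have hred : IsReduced y.toWord.dropLast := by
      rw [ha2, reduced_append] at h1
      exact h1.1
    rw [← toWord_mk_red hred]
    congr 1
    have e1 : y = mk (y.toWord.dropLast ++ [a]) := by rw [← ha2, mk_toWord]
    have e2 : mk [a] = (mk [b] : FreeGroup α)⁻¹ := by rw [inv_mk, hab]; simp [invRev]
    conv_lhs => rw [e1]
    rw [← mul_mk, e2, inv_mul_cancel_right]

theorem head_mul_letter {y : FreeGroup α} {s : α × Bool} {b : α × Bool}
    (hy : y.toWord.head? = some b) (h : 1 < y.toWord.length ∨ s ≠ (b.1, !b.2)) :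
    (y * mk [s]).toWord.head? = some b := by
  rcases toWord_mul_letter y s with ⟨T, h1, h2⟩ | h1
  · rw [h2]
    rcases eq_or_ne T [] with rfl | hT
    · exfalso
      rw [h1] at hy h
      simp only [List.nil_append, List.head?_cons, Option.some.injEq, List.length_cons,
        List.length_nil, zero_add, lt_self_iff_false, false_or] at hy h
      apply h
      rw [← hy]
      simp
    · rw [h1, head?_append_ne hT] at hy
      exact hy
  · rw [h1]
    have : y.toWord ≠ [] := by
      intro h0; rw [h0] at hy; simp at hy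
    rw [head?_append_ne this, hy]

/-- multiplication by a word without `a⁻¹` preserves the words which start with `a` -/
theorem head_mul_word {a : α} (L : List (α × Bool)) (hL : (a, false) ∉ L) :
    ∀ y : FreeGroup α, y.toWord.head? = some (a, true) →
      (y * mk L).toWord.head? = some (a, true) := by
  induction L with
  | nil => intro y hy; rwa [← one_eq_mk, mul_one]
  | cons s L ih =>
    intro y hy
    have e : s :: L = [s] ++ L := rfl
    rw [e, ← mul_mk, ← mul_assoc]
    refine ih (fun h => hL (by simp [h])) _ (head_mul_letter hy (Or.inr ?_))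
    rintro rfl
    exact hL (by simp)

/-- the first letter of a long word is not changed by the multiplication by a short word -/
theorem head_mul_short (L : List (α × Bool)) :
    ∀ y : FreeGroup α, L.length < y.norm → (y * mk L).toWord.head? = y.toWord.head? := by
  induction L with
  | nil => intro y _; rw [← one_eq_mk, mul_one]
  | cons s L ih =>
    intro y hy
    have e : s :: L = [s] ++ L := rfl
    rw [e, ← mul_mk, ← mul_assoc]
    simp only [List.length_cons] at hy
    have hne : y.toWord ≠ [] := by
      intro h0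
      unfold FreeGroup.norm at hy
      rw [h0] at hy; simp at hy
    obtain ⟨b, T, hb⟩ := List.exists_cons_of_ne_nil hne
    have h1 : y.toWord.head? = some b := by rw [hb]; simp
    rw [ih, h1, head_mul_letter h1 (Or.inl (by unfold FreeGroup.norm at hy; omega))]
    rcases toWord_mul_letter y s with ⟨T, h1, h2⟩ | h1
    · unfold FreeGroup.norm at hy ⊢
      rw [h2]
      rw [h1] at hy
      simp at hy
      omega
    · unfold FreeGroup.norm at hy ⊢
      rw [h1]
      simp
      omega

theorem norm_letter (s : α × Bool) : (mk [s] : FreeGroup α).norm ≤ 1 := norm_mk_le (L₁ := [s])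

theorem norm_map_le [Fintype α] (ψ : FreeGroup α →* FreeGroup α) :
    ∃ C : ℕ, ∀ y : FreeGroup α, (ψ y).norm ≤ C * y.norm := by
  refine ⟨∑ x, (ψ (FreeGroup.of x)).norm, fun y => ?_⟩
  have key : ∀ L : List (α × Bool), (ψ (mk L)).norm ≤
      (∑ x, (ψ (FreeGroup.of x)).norm) * L.length := by
    intro L
    induction L with
    | nil => simp [← one_eq_mk]
    | cons s L ih =>
      have e : s :: L = [s] ++ L := rfl
      rw [e, ← mul_mk, _root_.map_mul]
      refine (FreeGroup.norm_mul_le _ _).trans ?_
      have h1 : (ψ (mk [s])).norm ≤ ∑ x, (ψ (FreeGroup.of x)).norm := by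
        have h2 : (ψ (mk [s])).norm = (ψ (FreeGroup.of s.1)).norm := by
          obtain ⟨x, b⟩ := s
          cases b
          · have : (mk [(x, false)] : FreeGroup α) = (FreeGroup.of x)⁻¹ := rfl
            rw [this, _root_.map_inv, norm_inv_eq]
          · rfl
        rw [h2]
        exact Finset.single_le_sum (f := fun x => (ψ (FreeGroup.of x)).norm)
          (fun _ _ => Nat.zero_le _) (Finset.mem_univ _)
      simp only [List.length_append, List.length_cons, List.length_nil, zero_add]
      rw [Nat.mul_add, mul_one]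
      omega
  have := key y.toWord
  rwa [mk_toWord] at this

variable [Fintype α]

/-- **The structure lemma.** -/
theorem turns (φ : FreeGroup α ≃* FreeGroup α) (a : α) (v : FreeGroup α)
    (hv : (a, false) ∉ v.toWord) (W : List (α × Bool)) (hW : IsCyclicallyReduced W)
    (hφ : mk W = φ v) :
    ∃ (G : List (α × Bool)) (A B : Set (α × Bool)), IsReduced G ∧ A.Nonempty ∧ B.Nonempty ∧
      Disjoint A B ∧ (∀ s, s ∈ A ∪ B ↔ IsReduced (G ++ [s])) ∧
      ∀ x ∈ A, ∀ y ∈ B, ∀ (m : ℕ) (P Q : List (α × Bool)),
        rep m W ≠ P ++ [(x.1, !x.2), y] ++ Q := by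
  set U : Set (FreeGroup α) := {g | (φ.symm g).toWord.head? = some (a, true)} with hU
  obtain ⟨C, hC⟩ := norm_map_le φ.toMonoidHom
  obtain ⟨K, hK⟩ := norm_map_le φ.symm.toMonoidHom
  have hC' : ∀ y, (φ y).norm ≤ C * y.norm := hC
  have hK' : ∀ y, (φ.symm y).norm ≤ K * y.norm := hK
  -- `U` is invariant
  have hinv : ∀ g ∈ U, ∀ n : ℕ, g * (mk W) ^ n ∈ U := by
    intro g hg n
    induction n with
    | zero => simpa using hg
    | succ n ih =>
      rw [pow_succ, ← mul_assoc]
      simp only [hU, Set.mem_ofPred_eq] at ih ⊢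
      rw [_root_.map_mul, hφ, φ.symm_apply_apply]
      have := head_mul_word v.toWord hv _ ih
      rw [mk_toWord, hφ] at this
      exact this
  -- finite coboundary
  obtain ⟨N, hN⟩ : ∃ N : ℕ, ∀ g : FreeGroup α, N ≤ g.norm → ∀ s : α × Bool,
      (g * mk [s] ∈ U ↔ g ∈ U) := by
    refine ⟨C * K + 1, fun g hg s => ?_⟩
    have h1 : K < (φ.symm g).norm := by
      by_contra h0
      push Not at h0
      have h2 := hC' (φ.symm g)
      rw [φ.apply_symm_apply] at h2
      have h3 : C * (φ.symm g).norm ≤ C * K := Nat.mul_le_mul_left _ h0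
      omega
    have h2 : (φ.symm (mk [s])).norm ≤ K := by
      have := hK' (mk [s])
      have h3 := norm_letter s
      have h4 : K * (mk [s] : FreeGroup α).norm ≤ K * 1 := Nat.mul_le_mul_left _ h3
      omega
    have h3 := head_mul_short (φ.symm (mk [s])).toWord (φ.symm g) (lt_of_le_of_lt h2 h1)
    rw [mk_toWord] at h3
    simp only [hU, Set.mem_ofPred_eq]
    rw [_root_.map_mul, h3]
  -- long words are monochromatic
  have hmono : ∀ (T G : List (α × Bool)), IsReduced (G ++ T) → N ≤ G.length →
      (mk (G ++ T) ∈ U ↔ mk G ∈ U) := by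
    intro T
    induction T with
    | nil => intro G _ _; simp
    | cons s T ih =>
      intro G hG hl
      have e : G ++ s :: T = (G ++ [s]) ++ T := by simp
      rw [e] at hG ⊢
      rw [ih (G ++ [s]) hG (by simp; omega), ← mul_mk]
      refine hN (mk G) ?_ s
      have hGr : IsReduced G := by
        rw [reduced_append, reduced_append] at hG
        exact hG.1.1
      unfold FreeGroup.norm
      rw [toWord_mk_red hGr]
      exact hl
  set PU : List (α × Bool) → Prop := fun G => ∃ n : ℕ, ∀ T, IsReduced (G ++ T) → n ≤ T.length →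
    mk (G ++ T) ∈ U with hPU
  set PV : List (α × Bool) → Prop := fun G => ∃ n : ℕ, ∀ T, IsReduced (G ++ T) → n ≤ T.length →
    mk (G ++ T) ∉ U with hPV
  have hlarge : ∀ z : FreeGroup α, ∀ n : ℕ, K * n < z.norm → n ≤ (φ z).toWord.length := by
    intro z n hz
    by_contra h0
    push Not at h0
    have h1 := hK' (φ z)
    rw [φ.symm_apply_apply] at h1
    have h2 : K * (φ z).norm ≤ K * n := Nat.mul_le_mul_left _ (le_of_lt h0)
    omega
  have hroot : ¬ PU [] ∧ ¬ PV [] := by
    constructor
    · rintro ⟨n, hn⟩
      have hnorm : ((FreeGroup.of a ^ (K * n + 1))⁻¹ : FreeGroup α).norm = K * n + 1 := by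
        rw [norm_inv_eq, norm_of_pow]
      have h1 := hn (φ (FreeGroup.of a ^ (K * n + 1))⁻¹).toWord isReduced_toWord
        (hlarge _ _ (by rw [hnorm]; omega))
      rw [List.nil_append, mk_toWord] at h1
      simp only [hU, Set.mem_ofPred_eq, φ.symm_apply_apply, toWord_inv, toWord_of_pow] at h1
      rw [head?_invRev] at h1
      rw [List.getLast?_replicate] at h1
      simp at h1
    · rintro ⟨n, hn⟩
      have hnorm : ((FreeGroup.of a ^ (K * n + 1)) : FreeGroup α).norm = K * n + 1 := by
        rw [norm_of_pow]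
      have h1 := hn (φ (FreeGroup.of a ^ (K * n + 1))).toWord isReduced_toWord
        (hlarge _ _ (by rw [hnorm]; omega))
      rw [List.nil_append, mk_toWord] at h1
      apply h1
      simp only [hU, Set.mem_ofPred_eq, φ.symm_apply_apply, toWord_of_pow]
      rw [List.head?_replicate]
      simp
  have hlong : ∀ G, IsReduced G → N ≤ G.length → PU G ∨ PV G := by
    intro G _ hl
    rcases Classical.em (mk G ∈ U) with h | h
    · exact Or.inl ⟨0, fun T hT _ => (hmono T G hT hl).2 h⟩
    · exact Or.inr ⟨0, fun T hT _ h' => h ((hmono T G hT hl).1 h')⟩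
  obtain ⟨G, hGr, hG1, hG2, hch⟩ : ∃ G, IsReduced G ∧ ¬ PU G ∧ ¬ PV G ∧
      ∀ s, IsReduced (G ++ [s]) → PU (G ++ [s]) ∨ PV (G ++ [s]) := by
    by_contra hno
    push Not at hno
    have : ∀ n : ℕ, ∃ G : List (α × Bool), G.length = n ∧ IsReduced G ∧ ¬ PU G ∧ ¬ PV G := by
      intro n
      induction n with
      | zero => exact ⟨[], rfl, IsReduced.nil, hroot.1, hroot.2⟩
      | succ n ih =>
        obtain ⟨G, h1, h2, h3, h4⟩ := ih
        obtain ⟨s, h5, h6⟩ := hno G h2 h3 h4
        exact ⟨G ++ [s], by simp [h1], h5, h6.1, h6.2⟩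
    obtain ⟨G, h1, h2, h3, h4⟩ := this N
    rcases hlong G h2 h1.ge with h | h
    · exact h3 h
    · exact h4 h
  refine ⟨G, {s | IsReduced (G ++ [s]) ∧ PU (G ++ [s])}, {s | IsReduced (G ++ [s]) ∧
    ¬ PU (G ++ [s])}, hGr, ?_, ?_, ?_, ?_, ?_⟩
  · -- if no child is `PU` then `PV G`
    by_contra hno
    rw [Set.not_nonempty_iff_eq_empty] at hno
    apply hG2
    have h1 : ∀ s : α × Bool, ∃ n : ℕ, IsReduced (G ++ [s]) → ∀ T, IsReduced ((G ++ [s]) ++ T) →
        n ≤ T.length → mk ((G ++ [s]) ++ T) ∉ U := by
      intro s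
      rcases Classical.em (IsReduced (G ++ [s])) with hs | hs
      · rcases hch s hs with h | h
        · exfalso
          have : s ∈ {s | IsReduced (G ++ [s]) ∧ PU (G ++ [s])} := ⟨hs, h⟩
          rw [hno] at this
          exact this
        · obtain ⟨n, hn⟩ := h
          exact ⟨n, fun _ => hn⟩
      · exact ⟨0, fun h => absurd h hs⟩
    choose f hf using h1
    refine ⟨Finset.univ.sup f + 1, fun T hT hl => ?_⟩
    rcases T with _ | ⟨s, T⟩
    · simp at hl
    · have e : G ++ s :: T = (G ++ [s]) ++ T := by simp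
      rw [e] at hT ⊢
      have hs : IsReduced (G ++ [s]) := by
        rw [reduced_append] at hT; exact hT.1
      have := Finset.le_sup (f := f) (Finset.mem_univ s)
      simp only [List.length_cons] at hl
      exact hf s hs T hT (by omega)
  · by_contra hno
    rw [Set.not_nonempty_iff_eq_empty] at hno
    apply hG1
    have h1 : ∀ s : α × Bool, ∃ n : ℕ, IsReduced (G ++ [s]) → ∀ T, IsReduced ((G ++ [s]) ++ T) →
        n ≤ T.length → mk ((G ++ [s]) ++ T) ∈ U := by
      intro s
      rcases Classical.em (IsReduced (G ++ [s])) with hs | hs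
      · rcases Classical.em (PU (G ++ [s])) with h | h
        · obtain ⟨n, hn⟩ := h
          exact ⟨n, fun _ => hn⟩
        · exfalso
          have : s ∈ {s | IsReduced (G ++ [s]) ∧ ¬ PU (G ++ [s])} := ⟨hs, h⟩
          rw [hno] at this
          exact this
      · exact ⟨0, fun h => absurd h hs⟩
    choose f hf using h1
    refine ⟨Finset.univ.sup f + 1, fun T hT hl => ?_⟩
    rcases T with _ | ⟨s, T⟩
    · simp at hl
    · have e : G ++ s :: T = (G ++ [s]) ++ T := by simp
      rw [e] at hT ⊢
      have hs : IsReduced (G ++ [s]) := by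
        rw [reduced_append] at hT; exact hT.1
      have := Finset.le_sup (f := f) (Finset.mem_univ s)
      simp only [List.length_cons] at hl
      exact hf s hs T hT (by omega)
  · rw [Set.disjoint_left]
    rintro s ⟨_, h1⟩ ⟨_, h2⟩
    exact h2 h1
  · intro s
    simp only [Set.mem_union, Set.mem_ofPred_eq]
    tauto
  · rintro x ⟨hx1, hx2⟩ y ⟨hy1, hy2⟩ m P Q hPQ
    have hy3 : PV (G ++ [y]) := (hch y hy1).resolve_left hy2
    obtain ⟨n1, hn1⟩ := hx2
    obtain ⟨n2, hn2⟩ := hy3
    have hm : m ≠ 0 := by
      rintro rfl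
      simp [rep_zero] at hPQ
    have hW0 : W ≠ [] := by
      rintro rfl
      have h1 := congrArg List.length hPQ
      rw [length_rep] at h1
      simp at h1
    have hWpos : 1 ≤ W.length := List.length_pos_iff.2 hW0
    have hrr : ∀ i j : ℕ, rep (i + j) W = rep i W ++ rep j W := by
      intro i j
      induction i with
      | zero => simp [rep_zero]
      | succ i ih => rw [Nat.add_right_comm, rep_succ, rep_succ, ih, List.append_assoc]
    obtain ⟨n, hn⟩ : ∃ n, n = n1 + n2 := ⟨_, rfl⟩
    -- the element `h`
    have e1 : mk (G ++ [x]) * (mk P)⁻¹ * (mk W) ^ (m + n) =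
        mk ((G ++ [y]) ++ (Q ++ rep n W)) := by
      rw [pow_add, ← mk_rep m, hPQ, ← mk_rep]
      have hx' : (mk [(x.1, !x.2)] : FreeGroup α) = (mk [x])⁻¹ := by
        rw [inv_mk]; simp [invRev]
      have e3 : P ++ [(x.1, !x.2), y] ++ Q = P ++ [(x.1, !x.2)] ++ [y] ++ Q := by simp
      rw [e3]
      simp only [← mul_mk, hx']
      group
    have e2 : mk (G ++ [x]) * (mk P)⁻¹ * ((mk W) ^ n)⁻¹ =
        mk ((G ++ [x]) ++ invRev (rep n W ++ P)) := by
      rw [← mk_rep, invRev_append]
      simp only [← mul_mk, ← inv_mk]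
      group
    have r1 : IsReduced ((G ++ [y]) ++ (Q ++ rep n W)) := by
      refine IsReduced.append_overlap hy1 ?_ (by simp)
      refine red_mid (P := P ++ [(x.1, !x.2)]) (R := []) (cyc_rep hW (m + n)).isReduced ?_
      rw [hrr, hPQ]; simp
    have r2 : IsReduced ((G ++ [x]) ++ invRev (rep n W ++ P)) := by
      refine IsReduced.append_overlap hx1 ?_ (by simp)
      have e4 : [x] ++ invRev (rep n W ++ P) = invRev (rep n W ++ P ++ [(x.1, !x.2)]) := by
        rw [invRev_append (L₁ := rep n W ++ P)]; simp [invRev]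
      rw [e4]
      refine reduced_invRev ?_
      refine red_mid (P := []) (R := [y] ++ Q) (cyc_rep hW (n + m)).isReduced ?_
      rw [hrr, hPQ]; simp
    have hlenn : n ≤ (rep n W).length := by
      rw [length_rep]; nlinarith
    have m1 := hn1 (invRev (rep n W ++ P)) r2 (by
      rw [invRev_length, List.length_append]; omega)
    have m2 := hn2 (Q ++ rep n W) r1 (by rw [List.length_append]; omega)
    rw [← e2] at m1
    rw [← e1] at m2
    apply m2
    have := hinv _ m1 (n + (m + n))
    rw [pow_add (mk W) n (m + n), ← mul_assoc, inv_mul_cancel_right] at this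
    exact this

/-- The structure lemma for conjugates. -/
theorem turns_conj (φ : FreeGroup α ≃* FreeGroup α) (a : α) (v c : FreeGroup α)
    (hv : (a, false) ∉ v.toWord) (W : List (α × Bool)) (hW : IsCyclicallyReduced W)
    (hφ : mk W = c * φ v * c⁻¹) :
    ∃ (G : List (α × Bool)) (A B : Set (α × Bool)), IsReduced G ∧ A.Nonempty ∧ B.Nonempty ∧
      Disjoint A B ∧ (∀ s, s ∈ A ∪ B ↔ IsReduced (G ++ [s])) ∧
      ∀ x ∈ A, ∀ y ∈ B, ∀ (m : ℕ) (P Q : List (α × Bool)),
        rep m W ≠ P ++ [(x.1, !x.2), y] ++ Q :=
  turns (φ.trans (MulAut.conj c)) a v hv W hW (by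
    rw [hφ, MulEquiv.trans_apply, MulAut.conj_apply])

end Pool.Agent.Q98.Block
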