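import Mathlib.GroupTheory.FreeGroup.Reduce
import Mathlib.GroupTheory.Abelianization.Defs
import Mathlib.GroupTheory.Index
import Mathlib.Algebra.BigOperators.Finsupp.Basic
import Mathlib.Tactic

/-!
# Chains of paths in the coset graph of a subgroup of a free group
-/

set_option autoImplicit false

namespace Pool.Agent.Q98.Chain

open scoped commutatorElement
open Finsupp

variable {X : Type} (S : Subgroup (FreeGroup X))

/-- vertices -/
abbrev V : Type := FreeGroup X ⧸ S

/-- chains -/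
abbrev C : Type := (V S × X) →₀ ℤ

/-- the action of a letter -/
noncomputable def act (x : X) : Equiv.Perm (V S × C S) where
  toFun p := (FreeGroup.of x • p.1, p.2 + single (p.1, x) 1)
  invFun p := ((FreeGroup.of x)⁻¹ • p.1, p.2 - single ((FreeGroup.of x)⁻¹ • p.1, x) 1)
  left_inv p := by
    refine Prod.ext ?_ ?_
    · simp
    · simp
  right_inv p := by
    refine Prod.ext ?_ ?_
    · simp
    · simp

/-- the action -/
noncomputable def Ψ : FreeGroup X →* Equiv.Perm (V S × C S) := FreeGroup.lift (act S)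

variable {S}

/-- the chain of the path from `v` with label `g` (read from the right) -/
noncomputable def c (g : FreeGroup X) (v : V S) : C S := (Ψ S g (v, 0)).2

theorem Ψ_aux (g : FreeGroup X) : ∀ (v : V S) (z : C S),
    Ψ S g (v, z) = (g • v, z + (Ψ S g (v, 0)).2) := by
  induction g using FreeGroup.induction_on with
  | C1 => intro v z; simp
  | of x =>
    intro v z
    simp only [Ψ, FreeGroup.lift_apply_of]
    refine Prod.ext ?_ ?_ <;> simp [act]
  | inv_of x _ =>
    intro v z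
    have e : ∀ p : V S × C S, Ψ S (FreeGroup.of x)⁻¹ p =
        ((FreeGroup.of x)⁻¹ • p.1, p.2 - single ((FreeGroup.of x)⁻¹ • p.1, x) 1) := by
      intro p
      rw [map_inv]
      simp only [Ψ, FreeGroup.lift_apply_of]
      rfl
    rw [e, e]
    refine Prod.ext rfl ?_
    simp [sub_eq_add_neg]
  | mul g h hg hh =>
    intro v z
    rw [map_mul, Equiv.Perm.mul_apply, Equiv.Perm.mul_apply, hh v z, hg, hg (Ψ S h (v, 0)).1]
    rw [hh v 0]
    simp only [mul_smul, zero_add]
    refine Prod.ext rfl ?_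
    simp [add_assoc]

theorem c_mul (g h : FreeGroup X) (v : V S) : c (g * h) v = c h v + c g (h • v) := by
  unfold c
  rw [map_mul, Equiv.Perm.mul_apply, Ψ_aux h v 0, Ψ_aux g, zero_add]

theorem c_one (v : V S) : c (1 : FreeGroup X) v = 0 := by
  unfold c; simp

theorem c_inv (g : FreeGroup X) (v : V S) : c g⁻¹ v = - c g (g⁻¹ • v) := by
  have h := c_mul g g⁻¹ v
  rw [mul_inv_cancel, c_one] at h
  exact eq_neg_of_add_eq_zero_left h.symm

theorem c_of (x : X) (v : V S) : c (FreeGroup.of x) v = single (v, x) 1 := by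
  unfold c
  simp [Ψ, act]

/-! ### the derived group of `S` -/

/-- the base point -/
def v0 (S : Subgroup (FreeGroup X)) : V S := ((1 : FreeGroup X) : FreeGroup X ⧸ S)

theorem smul_v0 (g : FreeGroup X) : g • v0 S = (g : V S) := by
  unfold v0
  rw [MulAction.Quotient.smul_coe, smul_eq_mul, mul_one]

theorem smul_v0_iff (g : FreeGroup X) : g • v0 S = v0 S ↔ g ∈ S := by
  rw [smul_v0]
  unfold v0
  rw [QuotientGroup.eq, mul_one, inv_mem_iff]

/-- closed paths with trivial chain -/
noncomputable def K (S : Subgroup (FreeGroup X)) : Subgroup (FreeGroup X) where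
  carrier := {g | g • v0 S = v0 S ∧ c g (v0 S) = 0}
  mul_mem' := by
    rintro g h ⟨hg1, hg2⟩ ⟨hh1, hh2⟩
    refine ⟨by rw [mul_smul, hh1, hg1], ?_⟩
    rw [c_mul, hh1, hg2, hh2, add_zero]
  one_mem' := ⟨one_smul _ _, c_one _⟩
  inv_mem' := by
    rintro g ⟨hg1, hg2⟩
    have h : g⁻¹ • v0 S = v0 S := by rw [inv_smul_eq_iff, hg1]
    refine ⟨h, ?_⟩
    rw [c_inv, h, hg2, neg_zero]

theorem mem_K {g : FreeGroup X} : g ∈ K S ↔ g • v0 S = v0 S ∧ c g (v0 S) = 0 := Iff.rfl

theorem inv_smul_v0 {g : FreeGroup X} (h : g • v0 S = v0 S) : g⁻¹ • v0 S = v0 S := by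
  rw [inv_smul_eq_iff, h]

theorem comm_le_K : ⁅S, S⁆ ≤ K S := by
  rw [Subgroup.commutator_le]
  intro g hg h hh
  rw [← smul_v0_iff] at hg hh
  refine mem_K.2 ⟨?_, ?_⟩
  · rw [commutatorElement_def, mul_smul, mul_smul, mul_smul, inv_smul_v0 hh, inv_smul_v0 hg, hh, hg]
  · rw [commutatorElement_def, c_mul, c_mul, c_mul, inv_smul_v0 hh, inv_smul_v0 hg, c_inv, c_inv,
      inv_smul_v0 hh, inv_smul_v0 hg, hh]
    abel

/-- transversal -/
noncomputable def τ (v : V S) : FreeGroup X := Quotient.out v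

theorem τ_mk (v : V S) : ((τ v : FreeGroup X) : V S) = v := Quotient.out_eq v

/-- the element of `S` attached to a path -/
noncomputable def sig (g : FreeGroup X) (v : V S) : S :=
  ⟨(τ (g • v))⁻¹ * (g * τ v), by
    rw [← QuotientGroup.eq, τ_mk, ← smul_eq_mul, ← MulAction.Quotient.smul_coe, τ_mk]⟩

theorem sig_mul (g h : FreeGroup X) (v : V S) : sig (g * h) v = sig g (h • v) * sig h v := by
  apply Subtype.ext
  simp only [sig, Subgroup.coe_mul, mul_smul]
  group

theorem sig_one (v : V S) : sig (1 : FreeGroup X) v = 1 := by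
  apply Subtype.ext
  simp [sig]

/-- the map from chains to the abelianization -/
noncomputable def Θ : C S →+ Additive (Abelianization S) :=
  Finsupp.liftAddHom fun p => (zmultiplesHom (Additive (Abelianization S)))
    (Additive.ofMul (Abelianization.of (sig (FreeGroup.of p.2) p.1)))

theorem Θ_single (p : V S × X) : (Θ : C S →+ _) (single p 1) =
    Additive.ofMul (Abelianization.of (sig (FreeGroup.of p.2) p.1)) := by
  unfold Θ
  rw [Finsupp.liftAddHom_apply_single]
  simp

theorem Θ_c (g : FreeGroup X) : ∀ v : V S, Θ (c g v) =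
    Additive.ofMul (Abelianization.of (sig g v)) := by
  induction g using FreeGroup.induction_on with
  | C1 => intro v; rw [c_one, sig_one]; simp
  | of x => intro v; rw [c_of, Θ_single]
  | inv_of x ih =>
    intro v
    rw [c_inv, map_neg, ih]
    have h := sig_mul (FreeGroup.of x) (FreeGroup.of x)⁻¹ v
    rw [mul_inv_cancel, sig_one] at h
    have h2 : sig (FreeGroup.of x)⁻¹ v = (sig (FreeGroup.of x) ((FreeGroup.of x)⁻¹ • v))⁻¹ :=
      eq_inv_of_mul_eq_one_right h.symm
    rw [h2, map_inv, ofMul_inv]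
  | mul g h hg hh =>
    intro v
    rw [c_mul, map_add, hg, hh, sig_mul, map_mul, ofMul_mul, add_comm]

theorem mem_comm {s : FreeGroup X} (hs : s ∈ S) (h : c s (v0 S) = 0) : s ∈ ⁅S, S⁆ := by
  have h1 := Θ_c s (v0 S)
  rw [h, map_zero] at h1
  have h2 : Abelianization.of (sig s (v0 S)) = 1 := by
    have := congrArg Additive.toMul h1
    exact this.symm
  have hτ : (τ (v0 S) : FreeGroup X) ∈ S := by
    have := τ_mk (v0 S)
    unfold v0 at this
    rw [QuotientGroup.eq, mul_one, inv_mem_iff] at this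
    exact this
  have h3 : sig s (v0 S) = (⟨τ (v0 S), hτ⟩ : S)⁻¹ * ⟨s, hs⟩ * ⟨τ (v0 S), hτ⟩ := by
    apply Subtype.ext
    simp only [sig, Subgroup.coe_mul, Subgroup.coe_inv]
    rw [(smul_v0_iff s).2 hs, mul_assoc]
  rw [h3, map_mul, map_mul, map_inv, mul_comm, ← mul_assoc, mul_inv_cancel, one_mul] at h2
  have h4 : (⟨s, hs⟩ : S) ∈ commutator S := by
    rw [← Abelianization.ker_of]
    exact h2
  have h5 := Subgroup.mem_map_of_mem S.subtype h4
  rwa [Subgroup.map_subtype_commutator] at h5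

/-! ### supports -/

theorem supp (g : FreeGroup X) : ∃ P : Set (FreeGroup X), P.Finite ∧
    ∀ (v : V S) (p : V S × X), c g v p ≠ 0 → ∃ q ∈ P, p.1 = q • v := by
  induction g using FreeGroup.induction_on with
  | C1 => exact ⟨∅, Set.finite_empty, fun v p h => absurd (by rw [c_one]; rfl) h⟩
  | of x =>
    refine ⟨{1}, Set.finite_singleton _, fun v p h => ⟨1, rfl, ?_⟩⟩
    rw [c_of] at h
    have : (v, x) = p := by
      by_contra hne
      exact h (Finsupp.single_eq_of_ne' hne)
    rw [← this, one_smul]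
  | inv_of x _ =>
    refine ⟨{(FreeGroup.of x)⁻¹}, Set.finite_singleton _, fun v p h => ⟨_, rfl, ?_⟩⟩
    rw [c_inv, c_of] at h
    have : ((FreeGroup.of x)⁻¹ • v, x) = p := by
      by_contra hne
      exact h (by rw [Finsupp.neg_apply, Finsupp.single_eq_of_ne' hne, neg_zero])
    rw [← this]
  | mul g h hg hh =>
    obtain ⟨P, hP, h1⟩ := hg
    obtain ⟨Q, hQ, h2⟩ := hh
    refine ⟨Q ∪ (fun q => q * h) '' P, hQ.union (hP.image _), fun v p hp => ?_⟩
    rw [c_mul, Finsupp.add_apply] at hp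
    by_cases h3 : c h v p = 0
    · rw [h3, zero_add] at hp
      obtain ⟨q, hq, h4⟩ := h1 _ p hp
      exact ⟨q * h, Or.inr ⟨q, hq, rfl⟩, by rw [h4, mul_smul]⟩
    · obtain ⟨q, hq, h4⟩ := h2 _ p h3
      exact ⟨q, Or.inl hq, h4⟩

theorem far (g : FreeGroup X) (B : Set (V S)) (hB : B.Infinite) (z : C S)
    (h : ∀ v ∈ B, c g v = z) : z = 0 := by
  by_contra hz
  obtain ⟨p, hp⟩ := Finsupp.ne_iff.1 hz
  obtain ⟨P, hP, h1⟩ := supp (S := S) g
  apply hB
  refine (hP.image (fun q => q⁻¹ • p.1)).subset ?_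
  intro v hv
  obtain ⟨q, hq, h2⟩ := h1 v p (by rw [h v hv]; exact hp)
  refine ⟨q, hq, ?_⟩
  change q⁻¹ • p.1 = v
  rw [h2, inv_smul_smul]

end Pool.Agent.Q98.Chain
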