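import Pool.Agent.Q98.Chain

/-!
# The first step: `S ∩ [SR, SR] ≤ [S, S]`
-/

set_option autoImplicit false

namespace Pool.Agent.Q98.Chain

open scoped commutatorElement
open Finsupp

variable {X : Type} {S R : Subgroup (FreeGroup X)}

/-- the orbit of the base point under `R` -/
def V0 (S R : Subgroup (FreeGroup X)) : Set (V S) := {v | ∃ r ∈ R, v = r • v0 S}

theorem smul_V0 (hR : R.Normal) {g : FreeGroup X} (hg : g ∈ S ⊔ R) {v : V S} (hv : v ∈ V0 S R) :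
    g • v ∈ V0 S R := by
  obtain ⟨r, hr, rfl⟩ := hv
  haveI := hR
  obtain ⟨s, hs, q, hq, rfl⟩ := Subgroup.mem_sup_of_normal_right.1 hg
  refine ⟨s * (q * r) * s⁻¹, hR.conj_mem _ (mul_mem hq hr) s, ?_⟩
  have h1 : s⁻¹ • v0 S = v0 S := inv_smul_v0 ((smul_v0_iff s).2 hs)
  rw [mul_smul (s * (q * r)), h1, ← mul_smul, mul_assoc]

/-- the chains of `t ∈ R ∩ S` from the points of the orbit are equal -/
theorem chain_const (h : ⁅R, R⁆ ≤ ⁅S, S⁆) {t : FreeGroup X} (ht : t ∈ R)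
    (htS : t ∈ S) {v : V S} (hv : v ∈ V0 S R) : c t v = c t (v0 S) := by
  obtain ⟨r, hr, rfl⟩ := hv
  have h1 : r⁻¹ * t * r * t⁻¹ ∈ ⁅S, S⁆ := by
    apply h
    have := Subgroup.commutator_mem_commutator (inv_mem hr) ht
    rwa [commutatorElement_def, inv_inv] at this
  have h2 := (mem_K.1 (comm_le_K h1)).2
  have ht0 : t • v0 S = v0 S := (smul_v0_iff t).2 htS
  have h3 : (r⁻¹ * t * r) • v0 S = v0 S := by
    rw [smul_v0_iff]
    have := mul_mem (Subgroup.commutator_le_self S h1) htS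
    rwa [inv_mul_cancel_right] at this
  have h4 : t • r • v0 S = r • v0 S := by
    rw [mul_smul, mul_smul, inv_smul_eq_iff] at h3
    exact h3
  rw [c_mul, inv_smul_v0 ht0, c_mul, c_mul, c_inv, inv_smul_v0 ht0, h4, c_inv,
    inv_smul_smul] at h2
  have h5 : c t (r • v0 S) = c t (v0 S) := by
    have : -c t (v0 S) + (c r (v0 S) + (c t (r • v0 S) + -c r (v0 S))) =
      c t (r • v0 S) - c t (v0 S) := by abel
    rw [this] at h2
    exact sub_eq_zero.1 h2
  exact h5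

/-- the sum of the chains over the orbit vanishes on commutators -/
theorem sum_zero (hR : R.Normal) (s : Finset (V S)) (hs : ∀ v, v ∈ s ↔ v ∈ V0 S R)
    {t : FreeGroup X} (ht : t ∈ ⁅S ⊔ R, S ⊔ R⁆) : ∑ v ∈ s, c t v = 0 := by
  have hperm : ∀ g ∈ S ⊔ R, ∀ f : V S → C S, ∑ v ∈ s, f (g • v) = ∑ v ∈ s, f v := by
    intro g hg f
    refine Finset.sum_bij' (fun v _ => g • v) (fun v _ => g⁻¹ • v) ?_ ?_ ?_ ?_ ?_
    · intro v hv
      rw [hs] at hv ⊢
      exact smul_V0 hR hg hv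
    · intro v hv
      rw [hs] at hv ⊢
      exact smul_V0 hR (inv_mem hg) hv
    · intro v _; exact inv_smul_smul g v
    · intro v _; exact smul_inv_smul g v
    · intro v _; rfl
  have hmul : ∀ g h : FreeGroup X, h ∈ S ⊔ R →
      ∑ v ∈ s, c (g * h) v = ∑ v ∈ s, c g v + ∑ v ∈ s, c h v := by
    intro g h hh
    rw [Finset.sum_congr rfl (fun v _ => c_mul g h v), Finset.sum_add_distrib,
      hperm h hh (fun v => c g v), add_comm]
  have hinv : ∀ g : FreeGroup X, g ∈ S ⊔ R → ∑ v ∈ s, c g⁻¹ v = - ∑ v ∈ s, c g v := by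
    intro g hg
    have h1 := hmul g⁻¹ g hg
    rw [inv_mul_cancel, Finset.sum_congr rfl (fun v _ => c_one v), Finset.sum_const_zero] at h1
    exact eq_neg_of_add_eq_zero_left h1.symm
  let L : Subgroup (FreeGroup X) :=
    { carrier := {g | g ∈ S ⊔ R ∧ ∑ v ∈ s, c g v = 0}
      mul_mem' := by
        rintro g h ⟨hg1, hg2⟩ ⟨hh1, hh2⟩
        refine ⟨mul_mem hg1 hh1, ?_⟩
        rw [hmul g h hh1, hg2, hh2, add_zero]
      one_mem' := ⟨one_mem _, by
        rw [Finset.sum_congr rfl (fun v _ => c_one v), Finset.sum_const_zero]⟩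
      inv_mem' := by
        rintro g ⟨hg1, hg2⟩
        exact ⟨inv_mem hg1, by rw [hinv g hg1, hg2, neg_zero]⟩ }
  have hle : ⁅S ⊔ R, S ⊔ R⁆ ≤ L := by
    rw [Subgroup.commutator_le]
    intro g hg h hh
    refine ⟨mul_mem (mul_mem (mul_mem hg hh) (inv_mem hg)) (inv_mem hh), ?_⟩
    rw [commutatorElement_def, hmul _ _ (inv_mem hh), hmul _ _ (inv_mem hg), hmul _ _ hh,
      hinv g hg, hinv h hh]
    abel
  exact (hle ht).2

theorem stepA (hR : R.Normal) (h : ⁅R, R⁆ ≤ ⁅S, S⁆) {t : FreeGroup X} (ht : t ∈ R)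
    (htS : t ∈ S) (htc : t ∈ ⁅S ⊔ R, S ⊔ R⁆) : t ∈ ⁅S, S⁆ := by
  apply mem_comm htS
  by_cases hinf : (V0 S R).Infinite
  · exact far t (V0 S R) hinf _ (fun v hv => chain_const h ht htS hv)
  · rw [Set.not_infinite] at hinf
    have hs : ∀ v, v ∈ hinf.toFinset ↔ v ∈ V0 S R := fun v => Set.Finite.mem_toFinset hinf
    have h1 := sum_zero hR hinf.toFinset hs htc
    rw [Finset.sum_congr rfl (fun v hv => chain_const h ht htS ((hs v).1 hv)),
      Finset.sum_const] at h1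
    have hne : hinf.toFinset.card ≠ 0 := by
      rw [Finset.card_ne_zero]
      exact ⟨v0 S, (hs _).2 ⟨1, one_mem _, by simp⟩⟩
    exact (smul_eq_zero.1 h1).resolve_left hne

theorem stepA' (hR : R.Normal) (h : ⁅R, R⁆ ≤ ⁅S, S⁆) : S ⊓ ⁅S ⊔ R, S ⊔ R⁆ ≤ ⁅S, S⁆ := by
  rintro s ⟨hs, hsc⟩
  haveI := hR
  obtain ⟨s', hs', r, hr, hrs⟩ : ∃ s' ∈ ⁅S, S⁆, ∃ r ∈ R, s' * r = s := by
    have h1 : ⁅S ⊔ R, S ⊔ R⁆ ≤ ⁅S, S⁆ ⊔ R := by
      have h3 : (S ⊔ R).map (QuotientGroup.mk' R) = S.map (QuotientGroup.mk' R) := by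
        rw [Subgroup.map_sup, (Subgroup.map_eq_bot_iff R).2 (by rw [QuotientGroup.ker_mk']),
          sup_bot_eq]
      have h4 : (⁅S ⊔ R, S ⊔ R⁆).map (QuotientGroup.mk' R) ≤
          (⁅S, S⁆).map (QuotientGroup.mk' R) := by
        rw [Subgroup.map_commutator, Subgroup.map_commutator, h3]
      rw [Subgroup.map_le_map_iff, QuotientGroup.ker_mk'] at h4
      exact h4
    exact Subgroup.mem_sup_of_normal_right.1 (h1 hsc)
  have hs'S : s' ∈ S := Subgroup.commutator_le_self S hs'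
  have h2 : r ∈ ⁅S, S⁆ := by
    have e : r = s'⁻¹ * s := by rw [← hrs]; group
    refine stepA hR h hr ?_ ?_
    · rw [e]; exact mul_mem (inv_mem hs'S) hs
    · rw [e]
      exact mul_mem (inv_mem (Subgroup.commutator_mono le_sup_left le_sup_left hs')) hsc
  rw [← hrs]
  exact mul_mem hs' h2

end Pool.Agent.Q98.Chain
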