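import Pool.Agent.Q98.Chain

/-!
# The second step: a subgroup `S` which contains a nontrivial normal subgroup and satisfies
`S ∩ [F, F] ≤ [S, S]` is the whole group.
-/

set_option autoImplicit false

namespace Pool.Agent.Q98.Chain

open scoped commutatorElement
open Finsupp
open FreeGroup (mk mul_mk)

variable {X : Type} {S : Subgroup (FreeGroup X)}

theorem τ_smul (v : V S) : τ v • v0 S = v := by
  rw [smul_v0, τ_mk]

/-- chains of an element from different fixed points agree -/
theorem B0 (hS : S ⊓ ⁅(⊤ : Subgroup (FreeGroup X)), ⊤⁆ ≤ ⁅S, S⁆) {g : FreeGroup X} {v v' : V S}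
    (hv : g • v = v) (hv' : g • v' = v') : c g v = c g v' := by
  obtain ⟨u, hu⟩ : ∃ u : FreeGroup X, u • v = v' := ⟨τ v' * (τ v)⁻¹, by
    have : (τ v)⁻¹ • v = v0 S := by rw [inv_smul_eq_iff, τ_smul]
    rw [mul_smul, this, τ_smul]⟩
  have hgi : g⁻¹ • v = v := by rw [inv_smul_eq_iff, hv]
  have hui : u⁻¹ • v' = v := by rw [inv_smul_eq_iff, hu]
  set h := u⁻¹ * g * u * g⁻¹ with hh
  have h1 : h ∈ (⁅(⊤ : Subgroup (FreeGroup X)), (⊤ : Subgroup (FreeGroup X))⁆ :
      Subgroup (FreeGroup X)) := by
    have := Subgroup.commutator_mem_commutator (H₁ := (⊤ : Subgroup (FreeGroup X)))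
      (H₂ := (⊤ : Subgroup (FreeGroup X))) (Subgroup.mem_top u⁻¹) (Subgroup.mem_top g)
    rwa [commutatorElement_def, inv_inv] at this
  have h2 : h • v = v := by
    rw [hh, mul_smul, mul_smul, mul_smul, hgi, hu, hv', hui]
  have h3 : c h v = - c g v + c g v' := by
    rw [hh, c_mul, c_mul, c_mul, hgi, hu, hv', c_inv, c_inv, hgi, hui]
    abel
  set k := τ v with hk
  have hkv : k • v0 S = v := τ_smul v
  have hkv' : k⁻¹ • v = v0 S := by rw [inv_smul_eq_iff, hkv]
  have h4 : k⁻¹ * h * k ∈ ⁅S, S⁆ := by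
    apply hS
    refine ⟨?_, ?_⟩
    · change k⁻¹ * h * k ∈ S
      rw [← smul_v0_iff, mul_smul, mul_smul, hkv, h2, hkv']
    · change k⁻¹ * h * k ∈ (⁅(⊤ : Subgroup (FreeGroup X)), (⊤ : Subgroup (FreeGroup X))⁆ :
        Subgroup (FreeGroup X))
      have := (Subgroup.commutator_normal (⊤ : Subgroup (FreeGroup X)) ⊤).conj_mem h h1 k⁻¹
      rwa [inv_inv] at this
  have h5 := (mem_K.1 (comm_le_K h4)).2
  rw [c_mul, c_mul, hkv, h2, c_inv, hkv'] at h5
  have h6 : c h v = 0 := by
    have : c k (v0 S) + (c h v + -c k (v0 S)) = c h v := by abel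
    rw [this] at h5
    exact h5
  rw [h3] at h6
  exact (neg_add_eq_zero.1 h6)

/-! ### paths -/

theorem mk_true (x : X) : (mk [(x, true)] : FreeGroup X) = FreeGroup.of x := rfl
theorem mk_false (x : X) : (mk [(x, false)] : FreeGroup X) = (FreeGroup.of x)⁻¹ := rfl
theorem mk_cons (m : X × Bool) (L : List (X × Bool)) :
    (mk (m :: L) : FreeGroup X) = mk [m] * mk L := by
  rw [mul_mk]; rfl

theorem path_supp (L : List (X × Bool)) (u : V S) (p : V S × X) (h : c (mk L) u p ≠ 0) :
    ∃ (P : List (X × Bool)) (m : X × Bool) (Q : List (X × Bool)), L = P ++ m :: Q ∧ m.1 = p.2 ∧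
      ((m.2 = true ∧ p.1 = (mk Q : FreeGroup X) • u) ∨
        (m.2 = false ∧ p.1 = (mk (m :: Q) : FreeGroup X) • u)) := by
  induction L with
  | nil => rw [← FreeGroup.one_eq_mk, c_one] at h; exact absurd rfl h
  | cons m L ih =>
    by_cases h1 : c (mk L) u p = 0
    · rw [mk_cons, c_mul, Finsupp.add_apply, h1, zero_add] at h
      obtain ⟨x, b⟩ := m
      refine ⟨[], (x, b), L, rfl, ?_⟩
      cases b
      · rw [mk_false, c_inv, c_of, Finsupp.neg_apply] at h
        have h2 : ((FreeGroup.of x)⁻¹ • (mk L : FreeGroup X) • u, x) = p := by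
          by_contra hne
          exact h (by rw [Finsupp.single_eq_of_ne' hne, neg_zero])
        refine ⟨by rw [← h2], Or.inr ⟨rfl, ?_⟩⟩
        rw [← h2, mk_cons, mk_false, mul_smul]
      · rw [mk_true, c_of] at h
        have h2 : ((mk L : FreeGroup X) • u, x) = p := by
          by_contra hne
          exact h (Finsupp.single_eq_of_ne' hne)
        exact ⟨by rw [← h2], Or.inl ⟨rfl, by rw [← h2]⟩⟩
    · obtain ⟨P, m', Q, h2, h3, h4⟩ := ih h1
      exact ⟨m :: P, m', Q, by rw [h2]; rfl, h3, h4⟩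

theorem not_red {P : List (X × Bool)} {x : X} {b : Bool}
    (h : FreeGroup.IsReduced (P ++ [(x, !b)] ++ [(x, b)])) : False := by
  have h1 : FreeGroup.IsReduced ([(x, !b)] ++ [(x, b)]) := by
    rw [List.append_assoc] at h
    exact (List.isChain_append.1 h).2.1
  have := (FreeGroup.isReduced_cons_cons.1 h1).1 rfl
  revert this
  cases b <;> simp

/-- a closed reduced path contains a closed subpath with nontrivial chain -/
theorem simple_path : ∀ (n : ℕ) (L : List (X × Bool)), L.length ≤ n → L ≠ [] →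
    FreeGroup.IsReduced L → ∀ v : V S, (mk L : FreeGroup X) • v = v →
    ∃ P M Q : List (X × Bool), L = P ++ M ++ Q ∧
      (mk M : FreeGroup X) • (mk Q : FreeGroup X) • v = (mk Q : FreeGroup X) • v ∧
      c (mk M) ((mk Q : FreeGroup X) • v) ≠ 0 := by
  intro n
  induction n with
  | zero =>
    intro L hL hL0
    exact absurd (List.length_eq_zero_iff.1 (Nat.le_zero.1 hL)) hL0
  | succ n ih =>
    intro L hLn hL0 hred v hv
    by_cases hex : ∃ P M Q : List (X × Bool), L = P ++ M ++ Q ∧ M ≠ [] ∧ M.length < L.length ∧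
        (mk M : FreeGroup X) • (mk Q : FreeGroup X) • v = (mk Q : FreeGroup X) • v
    · obtain ⟨P, M, Q, rfl, hM0, hMl, hMv⟩ := hex
      have hMr : FreeGroup.IsReduced M := by
        have := (List.isChain_append.1 hred).1
        exact (List.isChain_append.1 this).2.1
      obtain ⟨P', M', Q', rfl, h1, h2⟩ := ih M (by omega) hM0 hMr _ hMv
      refine ⟨P ++ P', M', Q' ++ Q, by simp, ?_, ?_⟩
      · rw [← mul_mk, mul_smul]; exact h1
      · rw [← mul_mk, mul_smul]; exact h2
    · have hno : ∀ P M Q : List (X × Bool), L = P ++ M ++ Q → M ≠ [] → M.length < L.length →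
          (mk M : FreeGroup X) • (mk Q : FreeGroup X) • v ≠ (mk Q : FreeGroup X) • v := by
        intro P M Q h1 h2 h3 h4
        exact hex ⟨P, M, Q, h1, h2, h3, h4⟩
      refine ⟨[], L, [], by simp, ?_, ?_⟩
      · rw [← FreeGroup.one_eq_mk, one_smul]; exact hv
      rw [← FreeGroup.one_eq_mk, one_smul]
      obtain ⟨L', m, rfl⟩ : ∃ L' m, L = L' ++ [m] :=
        ⟨_, _, (List.dropLast_append_getLast hL0).symm⟩
      intro hzero
      rw [← mul_mk, c_mul] at hzero
      obtain ⟨x, b⟩ := m
      cases b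
      · -- the last letter is `x⁻¹`
        set u : V S := (FreeGroup.of x)⁻¹ • v with hu
        rw [mk_false, c_inv, c_of, ← hu] at hzero
        have h1 := DFunLike.congr_fun hzero (u, x)
        rw [Finsupp.add_apply, Finsupp.neg_apply, Finsupp.single_eq_same] at h1
        have h2 : c (mk L') u (u, x) ≠ 0 := by
          intro h3
          rw [h3] at h1
          simp at h1
        obtain ⟨P, m', Q, h3, h4, h5⟩ := path_supp L' u (u, x) h2
        obtain ⟨x', b'⟩ := m'
        simp only at h4 h5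
        subst h4
        rcases h5 with ⟨h6, h7⟩ | ⟨h6, h7⟩
        · subst h6
          rcases eq_or_ne Q [] with hQ | hQ
          · subst hQ
            rw [h3] at hred
            exact not_red (b := false) (P := P) (by simpa using hred)
          · refine hno (P ++ [(x', true)]) Q [(x', false)] (by rw [h3]; simp) hQ ?_ ?_
            · rw [h3]; simp; omega
            · rw [mk_false, ← hu]; exact h7.symm
        · subst h6
          refine hno P ((x', false) :: Q) [(x', false)] (by rw [h3]) (by simp) ?_ ?_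
          · rw [h3]; simp; omega
          · rw [mk_false, ← hu]; exact h7.symm
      · set u : V S := FreeGroup.of x • v with hu
        rw [mk_true, c_of, ← hu] at hzero
        have h1 := DFunLike.congr_fun hzero (v, x)
        rw [Finsupp.add_apply, Finsupp.single_eq_same] at h1
        have h2 : c (mk L') u (v, x) ≠ 0 := by
          intro h3
          rw [h3] at h1
          simp at h1
        obtain ⟨P, m', Q, h3, h4, h5⟩ := path_supp L' u (v, x) h2
        obtain ⟨x', b'⟩ := m'
        simp only at h4 h5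
        subst h4
        rcases h5 with ⟨h6, h7⟩ | ⟨h6, h7⟩
        · subst h6
          refine hno (P ++ [(x', true)]) (Q ++ [(x', true)]) [] (by rw [h3]; simp) (by simp) ?_ ?_
          · rw [h3]; simp; omega
          · rw [← FreeGroup.one_eq_mk, one_smul, ← mul_mk, mul_smul, mk_true, ← hu]
            exact h7.symm
        · subst h6
          rcases eq_or_ne P [] with hP | hP
          · subst hP
            have h8 : (mk Q : FreeGroup X) • u = u := by
              rw [mk_cons, mk_false, mul_smul] at h7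
              rw [eq_inv_smul_iff] at h7
              exact h7.symm
            rcases eq_or_ne Q [] with hQ | hQ
            · subst hQ
              rw [h3] at hred
              exact not_red (X := X) (x := x') (b := true) (P := []) hred
            · refine hno [(x', false)] Q [(x', true)] (by rw [h3]; rfl) hQ ?_ ?_
              · rw [h3]; simp
              · rw [mk_true, ← hu]; exact h8
          · refine hno P ((x', false) :: Q ++ [(x', true)]) [] (by rw [h3]; simp) (by simp) ?_ ?_
            · have : 1 ≤ P.length := List.length_pos_iff.2 hP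
              rw [h3]; simp; omega
            · rw [← FreeGroup.one_eq_mk, one_smul, ← mul_mk, mul_smul, mk_true, ← hu]
              exact h7.symm

/-- the infinite case -/
theorem B2 (hS : S ⊓ ⁅(⊤ : Subgroup (FreeGroup X)), ⊤⁆ ≤ ⁅S, S⁆) {t : FreeGroup X} (ht : t ≠ 1)
    (hfix : ∀ v : V S, t • v = v) (hinf : Infinite (V S)) : False := by
  classical
  have hL0 : t.toWord ≠ [] := by rwa [Ne, FreeGroup.toWord_eq_nil_iff]
  have key : ∀ v : V S, ∃ P M Q : List (X × Bool), t.toWord = P ++ M ++ Q ∧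
      (mk M : FreeGroup X) • (mk Q : FreeGroup X) • v = (mk Q : FreeGroup X) • v ∧
      c (mk M) ((mk Q : FreeGroup X) • v) ≠ 0 := fun v =>
    simple_path _ t.toWord le_rfl hL0 FreeGroup.isReduced_toWord v
      (by rw [FreeGroup.mk_toWord]; exact hfix v)
  choose P M Q h1 h2 h3 using key
  have hlen : ∀ v, (P v).length < t.toWord.length + 1 ∧ (M v).length < t.toWord.length + 1 := by
    intro v
    have := congrArg List.length (h1 v)
    simp only [List.length_append] at this
    omega
  let f : V S → Fin (t.toWord.length + 1) × Fin (t.toWord.length + 1) := fun v =>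
    (⟨(P v).length, (hlen v).1⟩, ⟨(M v).length, (hlen v).2⟩)
  obtain ⟨ij, hij⟩ := Finite.exists_infinite_fiber f
  have hB : (f ⁻¹' {ij}).Infinite := Set.infinite_coe_iff.1 hij
  obtain ⟨v1, hv1⟩ := hB.nonempty
  have heq : ∀ v ∈ f ⁻¹' {ij}, M v = M v1 ∧ Q v = Q v1 := by
    intro v hv
    have e1 : f v = f v1 := by
      rw [Set.mem_preimage, Set.mem_singleton_iff] at hv hv1
      rw [hv, hv1]
    have e2 : (P v).length = (P v1).length := congrArg (fun z => (z.1 : ℕ)) e1
    have e3 : (M v).length = (M v1).length := congrArg (fun z => (z.2 : ℕ)) e1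
    have e4 : P v ++ M v ++ Q v = P v1 ++ M v1 ++ Q v1 := by rw [← h1, ← h1]
    obtain ⟨e5, e6⟩ := List.append_inj e4 (by simp [e2, e3])
    exact ⟨(List.append_inj e5 e2).2, e6⟩
  set g : FreeGroup X := (mk (Q v1))⁻¹ * mk (M v1) * mk (Q v1) with hg
  have hgv : ∀ v ∈ f ⁻¹' {ij}, g • v = v ∧ c g v ≠ 0 := by
    intro v hv
    obtain ⟨e1, e2⟩ := heq v hv
    have h2' := h2 v
    have h3' := h3 v
    rw [e1, e2] at h2' h3'
    refine ⟨?_, ?_⟩
    · rw [hg, mul_smul, mul_smul, h2', inv_smul_smul]
    · rw [hg, c_mul, c_mul, h2', c_inv, inv_smul_smul]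
      have : c (mk (Q v1)) v + (c (mk (M v1)) ((mk (Q v1) : FreeGroup X) • v) +
          -c (mk (Q v1)) v) = c (mk (M v1)) ((mk (Q v1) : FreeGroup X) • v) := by abel
      rw [this]
      exact h3'
  have hz := far g (f ⁻¹' {ij}) hB (c g v1)
    (fun v hv => B0 hS (hgv v hv).1 (hgv v1 hv1).1)
  exact (hgv v1 hv1).2 hz

theorem c_pow (g : FreeGroup X) (v : V S) (n : ℕ) :
    c (g ^ n) v = ∑ j ∈ Finset.range n, c g (g ^ j • v) := by
  induction n with
  | zero => rw [pow_zero, c_one]; simp
  | succ n ih => rw [pow_succ', c_mul, ih, Finset.sum_range_succ]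

/-- the finite case -/
theorem B1 (hS : S ⊓ ⁅(⊤ : Subgroup (FreeGroup X)), ⊤⁆ ≤ ⁅S, S⁆) (hfin : Finite (V S))
    {x y : X} (hxy : x ≠ y) : S = ⊤ := by
  classical
  obtain ⟨N, hN, hfixN⟩ : ∃ N : ℕ, 0 < N ∧ ∀ (g : FreeGroup X) (v : V S), g ^ N • v = v := by
    refine ⟨Nat.card (Equiv.Perm (V S)), Nat.card_pos, fun g v => ?_⟩
    have h1 : (MulAction.toPermHom (FreeGroup X) (V S) g) ^ (Nat.card (Equiv.Perm (V S))) = 1 :=
      pow_card_eq_one'
    rw [← map_pow] at h1
    have := Equiv.Perm.congr_fun h1 v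
    simpa using this
  have hpos : ∀ (g : FreeGroup X) (z : X), (∀ v v' : V S, 0 ≤ c g v (v', z)) →
      (∀ v : V S, 0 < c g v (v, z)) → ∀ v : V S, 0 < c (g ^ N) v (v, z) := by
    intro g z h1 h2 v
    rw [c_pow, Finsupp.finsetSum_apply]
    refine Finset.sum_pos' (fun j _ => h1 _ _) ⟨0, Finset.mem_range.2 hN, ?_⟩
    rw [pow_zero, one_smul]
    exact h2 v
  have htrans : ∀ (z : X) (v v' : V S), ∃ j : ℕ, v' = (FreeGroup.of z) ^ j • v := by
    intro z v v'
    have h1 := hpos (FreeGroup.of z) z (fun a b => by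
      rw [c_of, Finsupp.single_apply]; split_ifs <;> simp) (fun a => by
      rw [c_of, Finsupp.single_eq_same]; exact one_pos) v'
    rw [← B0 hS (hfixN (FreeGroup.of z) v) (hfixN (FreeGroup.of z) v'), c_pow,
      Finsupp.finsetSum_apply] at h1
    obtain ⟨j, -, hj⟩ := Finset.exists_ne_zero_of_sum_ne_zero h1.ne'
    refine ⟨j, ?_⟩
    rw [c_of] at hj
    by_contra hne
    exact hj (Finsupp.single_eq_of_ne' (fun h => hne (congrArg Prod.fst h).symm))
  obtain ⟨m, hm⟩ := htrans y (v0 S) (FreeGroup.of x • v0 S)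
  set w : FreeGroup X := ((FreeGroup.of y) ^ m)⁻¹ * FreeGroup.of x with hw
  have hwfix : w • v0 S = v0 S := by
    rw [hw, mul_smul, hm, inv_smul_smul]
  have hwc : ∀ v v' : V S, c w v (v', x) = single (v, x) (1 : ℤ) (v', x) := by
    intro v v'
    rw [hw, c_mul, c_of, c_inv, Finsupp.add_apply, Finsupp.neg_apply, c_pow,
      Finsupp.finsetSum_apply]
    rw [Finset.sum_eq_zero, neg_zero, add_zero]
    intro j _
    rw [c_of]
    exact Finsupp.single_eq_of_ne' (fun h => hxy (congrArg Prod.snd h).symm)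
  have hwj : ∀ j : ℕ, w ^ j • v0 S = v0 S := by
    intro j
    induction j with
    | zero => simp
    | succ j ih => rw [pow_succ, mul_smul, hwfix, ih]
  have hone : ∀ v : V S, v = v0 S := by
    intro v
    by_contra hne
    have h1 := hpos w x (fun a b => by
      rw [hwc, Finsupp.single_apply]; split_ifs <;> simp) (fun a => by
      rw [hwc, Finsupp.single_eq_same]; exact one_pos) v
    rw [← B0 hS (hfixN w (v0 S)) (hfixN w v), c_pow, Finsupp.finsetSum_apply,
      Finset.sum_eq_zero] at h1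
    · exact lt_irrefl _ h1
    · intro j _
      rw [hwc]
      rw [hwj j]
      exact Finsupp.single_eq_of_ne' (fun h => hne (congrArg Prod.fst h).symm)
  rw [eq_top_iff]
  intro g _
  rw [← smul_v0_iff]
  exact hone _

/-- **Step B.** -/
theorem stepB (T : Subgroup (FreeGroup X)) (hT : T.Normal) (hTS : T ≤ S) (hT1 : T ≠ ⊥)
    (hS : S ⊓ ⁅(⊤ : Subgroup (FreeGroup X)), ⊤⁆ ≤ ⁅S, S⁆) {x y : X} (hxy : x ≠ y) : S = ⊤ := by
  rcases finite_or_infinite (V S) with hfin | hinf
  · exact B1 hS hfin hxy
  · exfalso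
    obtain ⟨⟨t, htT⟩, ht1⟩ := Subgroup.ne_bot_iff_exists_ne_one.1 hT1
    refine B2 (t := t) hS (fun h => ht1 (Subtype.ext h)) (fun v => ?_) hinf
    have h1 : (τ v)⁻¹ * t * τ v ∈ S := by
      apply hTS
      have := hT.conj_mem t htT (τ v)⁻¹
      rwa [inv_inv] at this
    rw [← smul_v0_iff, mul_smul, τ_smul, mul_smul, inv_smul_eq_iff, τ_smul] at h1
    exact h1

end Pool.Agent.Q98.Chain
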