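import Pool.Agent.Q98.PosA

/-!
# Powers and positive elements of free groups

Main result (`main`): if `a`, `v` are elements of a free group which do not commute and if
`a ^ m * v ^ k` (`m, k ≥ 5`) is conjugate to a positive element, then `v` is conjugate to a
positive or to a negative element.
-/

set_option autoImplicit false

namespace Pool.Agent.Q98.Pos

open FreeGroup List

variable {α : Type*}

/-- all letters of the word are positive -/
def AllPos (L : List (α × Bool)) : Prop := ∀ x ∈ L, x.2 = true

/-- all letters of the word are negative -/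
def AllNeg (L : List (α × Bool)) : Prop := ∀ x ∈ L, x.2 = false

section
variable [DecidableEq α]

/-- number of negative letters of the reduced word -/
def neg (g : FreeGroup α) : ℕ := g.toWord.countP (fun x => !x.2)

theorem neg_mul (g h : FreeGroup α) : neg (g * h) ≤ neg g + neg h := by
  have h1 := (toWord_mul_sublist g h).countP_le (p := fun x => !x.2)
  rwa [List.countP_append] at h1

theorem neg_pow_le (g : FreeGroup α) (n : ℕ) : neg (g ^ n) ≤ n * neg g := by
  induction n with
  | zero => simp [neg]
  | succ n ih =>
    rw [pow_succ]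
    have := neg_mul (g ^ n) g
    nlinarith

theorem neg_eq_zero_iff (g : FreeGroup α) : neg g = 0 ↔ AllPos g.toWord := by
  unfold neg AllPos
  rw [List.countP_eq_zero]
  simp

theorem toWord_mk_red {L : List (α × Bool)} (h : IsReduced L) : (mk L).toWord = L := by
  rw [toWord_mk, h.reduce_eq]

theorem neg_pow_cyc {L : List (α × Bool)} (hL : IsCyclicallyReduced L) (n : ℕ) :
    neg (mk L ^ n) = n * neg (mk L) := by
  rw [← mk_rep]
  unfold neg
  rw [toWord_mk_red (cyc_rep hL n).isReduced, toWord_mk_red hL.isReduced]
  induction n with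
  | zero => simp [rep_zero]
  | succ n ih => rw [rep_succ, List.countP_append, ih]; ring

/-- A cyclically reduced word which represents a conjugate of a positive element is positive. -/
theorem allPos_of_conj {L : List (α × Bool)} (hL : IsCyclicallyReduced L) (g W : FreeGroup α)
    (hW : AllPos W.toWord) (h : g * mk L * g⁻¹ = W) : AllPos L := by
  have h1 : ∀ n : ℕ, n * neg (mk L) ≤ neg g⁻¹ + neg g := by
    intro n
    rw [← neg_pow_cyc hL]
    have e : mk L ^ n = g⁻¹ * W ^ n * g := by
      rw [← h, conj_pow]; group
    rw [e]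
    have h2 := neg_mul (g⁻¹ * W ^ n) g
    have h3 := neg_mul g⁻¹ (W ^ n)
    have h4 := neg_pow_le W n
    rw [(neg_eq_zero_iff W).2 hW] at h4
    omega
  have h2 := h1 (neg g⁻¹ + neg g + 1)
  have h3 : neg (mk L) = 0 := by
    by_contra h0
    have : 1 ≤ neg (mk L) := Nat.one_le_iff_ne_zero.2 h0
    nlinarith
  rw [neg_eq_zero_iff, toWord_mk_red hL.isReduced] at h3
  exact h3

end

theorem infix_conj {L Y Z T : List (α × Bool)} {n : ℕ} (h : Y ++ Z ++ T = rep n L)
    (hZ : Z.length = L.length) : Y ++ Z = L ++ Y := by
  have hlen := congrArg List.length h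
  rw [length_rep] at hlen
  simp only [List.length_append] at hlen
  have hget : ∀ i, i < Y.length + Z.length → (Y ++ Z)[i]? = L[i % L.length]? := by
    intro i hi
    rw [← getElem?_rep n i (by omega), ← h,
      List.getElem?_append_left (l₁ := Y ++ Z) (by simpa using hi)]
  apply List.ext_getElem?
  intro i
  rcases Nat.lt_or_ge i (Y.length + Z.length) with hi | hi
  · rw [hget i hi]
    rcases Nat.lt_or_ge i L.length with h1 | h1
    · rw [List.getElem?_append_left h1, Nat.mod_eq_of_lt h1]
    · rw [List.getElem?_append_right h1]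
      have := hget (i - L.length) (by omega)
      rw [List.getElem?_append_left (by omega)] at this
      rw [this, Nat.mod_eq_sub_mod h1]
  · rw [List.getElem?_eq_none (by simp; omega), List.getElem?_eq_none (by simp; omega)]

theorem mem_infix {L P Q R : List (α × Bool)} {n : ℕ} (h : P ++ Q ++ R = rep n L)
    (hQ : L.length ≤ Q.length) : ∀ x ∈ L, x ∈ Q := by
  intro x hx
  obtain ⟨r, hr, rfl⟩ := List.mem_iff_getElem.1 hx
  have hL : 0 < L.length := by omega
  obtain ⟨q, u, hu, hp⟩ : ∃ q u, u < L.length ∧ P.length = L.length * q + u :=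
    ⟨P.length / L.length, P.length % L.length, Nat.mod_lt _ hL, (Nat.div_add_mod _ _).symm⟩
  have hlen := congrArg List.length h
  rw [length_rep] at hlen
  simp only [List.length_append] at hlen
  obtain ⟨t, ht1, ht2, ht3⟩ : ∃ t, P.length ≤ t ∧ t < P.length + L.length ∧ t % L.length = r := by
    rcases Nat.lt_or_ge r u with h1 | h1
    · refine ⟨L.length * (q + 1) + r, ?_, ?_, ?_⟩
      · rw [hp, Nat.mul_add]; omega
      · rw [hp, Nat.mul_add]; omega
      · rw [Nat.mul_add_mod, Nat.mod_eq_of_lt hr]
    · refine ⟨L.length * q + r, by omega, by omega, ?_⟩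
      rw [Nat.mul_add_mod, Nat.mod_eq_of_lt hr]
  have h2 := getElem?_rep (L := L) n t (by omega)
  rw [← h, List.append_assoc, List.getElem?_append_right ht1,
    List.getElem?_append_left (by omega), ht3, List.getElem?_eq_getElem hr] at h2
  exact List.mem_of_getElem? h2

theorem mem_rep {L : List (α × Bool)} {n : ℕ} {x : α × Bool} (h : x ∈ rep n L) : x ∈ L := by
  induction n with
  | zero => simp [rep_zero] at h
  | succ n ih =>
    rw [rep_succ, List.mem_append] at h
    exact h.elim id ih

/-- In a free group only `1` is conjugate to its inverse. -/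
theorem eq_one_of_conj_inv (g c : FreeGroup α) (h : c * g * c⁻¹ = g⁻¹) : g = 1 := by
  have h1 : c * g = g⁻¹ * c := by
    rw [← h]; group
  have h2 : (g * c) ^ 2 = c ^ 2 := by
    calc (g * c) ^ 2 = g * (c * g) * c := by rw [sq]; group
      _ = c ^ 2 := by rw [h1, sq]; group
  have h3 : g * c = c := pow_left_injective (by norm_num) h2
  exact mul_eq_right.1 h3

theorem mk_ne_one {L : List (α × Bool)} (hL : L ≠ []) (hr : IsReduced L) :
    (mk L : FreeGroup α) ≠ 1 := by
  classical
  intro h
  have := congrArg toWord h
  rw [toWord_mk_red hr, toWord_one] at this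
  exact hL this

section
variable [DecidableEq α]

/-- A long factor of a power of a cyclically reduced word that represents a conjugate of a positive
element: the word is positive. -/
theorem lemmaT {L P Q R : List (α × Bool)} {n : ℕ} (hL : IsCyclicallyReduced L) (hL0 : L ≠ [])
    (h : P ++ Q ++ R = rep n L) (hlen : 3 * L.length ≤ Q.length) (g W : FreeGroup α)
    (hW : AllPos W.toWord) (hc : g * mk Q * g⁻¹ = W) : AllPos L := by
  have hQr : IsReduced Q := red_mid (cyc_rep hL n).isReduced h
  obtain ⟨s, Q3, hdec, hQ3⟩ : ∃ s Q3, Q = s ++ Q3 ++ invRev s ∧ IsCyclicallyReduced Q3 :=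
    ⟨_, _, (reduceCyclically.conj_conjugator_reduceCyclically Q).symm,
      reduceCyclically.isCyclicallyReduced hQr⟩
  subst hdec
  have hpos : AllPos Q3 := by
    refine allPos_of_conj hQ3 (g * mk s) W hW ?_
    rw [← hc, ← mul_mk, ← mul_mk, ← inv_mk]
    group
  have hslen : s.length < L.length := by
    by_contra hge
    push Not at hge
    obtain ⟨s1, s2, rfl, hs1⟩ : ∃ s1 s2, s = s1 ++ s2 ∧ s1.length = L.length :=
      ⟨s.take L.length, s.drop L.length, (List.take_append_drop _ _).symm, by simp [hge]⟩
    have e1 := infix_conj (L := L) (Y := P) (Z := s1)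
      (T := s2 ++ Q3 ++ invRev (s1 ++ s2) ++ R) (n := n) (by
        rw [← h]; simp [List.append_assoc]) hs1
    have e2 := infix_conj (L := L) (Y := P ++ (s1 ++ s2) ++ Q3 ++ invRev s2) (Z := invRev s1)
      (T := R) (n := n) (by
        rw [← h, invRev_append]; simp [List.append_assoc]) (by rw [invRev_length, hs1])
    have f1 := congrArg (mk : _ → FreeGroup α) e1
    have f2 := congrArg (mk : _ → FreeGroup α) e2
    simp only [← mul_mk, ← inv_mk] at f1 f2
    set Y : FreeGroup α := mk P * (mk s1 * mk s2) * mk Q3 * (mk s2)⁻¹ with hY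
    have g1 : (mk s1 : FreeGroup α) = (mk P)⁻¹ * mk L * mk P := by
      rw [mul_assoc, ← f1]; group
    have g2 : (mk s1 : FreeGroup α)⁻¹ = Y⁻¹ * mk L * Y := by
      rw [mul_assoc, ← f2]; group
    have h4 : (mk L : FreeGroup α) = 1 := by
      refine eq_one_of_conj_inv (mk L) (mk P * Y⁻¹) ?_
      have : (mk P * Y⁻¹) * mk L * (mk P * Y⁻¹)⁻¹ = mk P * (Y⁻¹ * mk L * Y) * (mk P)⁻¹ := by group
      rw [this, ← g2, g1]
      group
    exact mk_ne_one hL0 hL.isReduced h4
  simp only [List.length_append, invRev_length] at hlen
  intro x hx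
  refine hpos x (mem_infix (P := P ++ s) (Q := Q3) (R := invRev s ++ R) (n := n) ?_ (by omega) x hx)
  rw [← h]
  simp [List.append_assoc]

theorem getLast?_append_ne {L M : List (α × Bool)} (hM : M ≠ []) :
    (L ++ M).getLast? = M.getLast? := by
  rw [List.getLast?_append_of_ne_nil _ hM]

theorem head?_append_ne {L M : List (α × Bool)} (hL : L ≠ []) :
    (L ++ M).head? = L.head? := by
  rw [List.head?_append_of_ne_nil _ hL]

theorem rep_ne {L : List (α × Bool)} (hL : L ≠ []) {n : ℕ} (hn : 1 ≤ n) : rep n L ≠ [] := by
  obtain ⟨n, rfl⟩ := Nat.exists_eq_add_of_le' hn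
  rw [rep_succ]; simp [hL]

theorem getLast?_rep {L : List (α × Bool)} (hL : L ≠ []) {n : ℕ} (hn : 1 ≤ n) :
    (rep n L).getLast? = L.getLast? := by
  obtain ⟨n, rfl⟩ := Nat.exists_eq_add_of_le' hn
  rw [rep_succ', getLast?_append_ne hL]

theorem head?_rep {L : List (α × Bool)} (hL : L ≠ []) {n : ℕ} (hn : 1 ≤ n) :
    (rep n L).head? = L.head? := by
  obtain ⟨n, rfl⟩ := Nat.exists_eq_add_of_le' hn
  rw [rep_succ, head?_append_ne hL]

theorem getLast?_invRev (L : List (α × Bool)) :
    (invRev L).getLast? = L.head?.map (fun x => (x.1, !x.2)) := by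
  simp [invRev]

theorem head?_invRev (L : List (α × Bool)) :
    (invRev L).head? = L.getLast?.map (fun x => (x.1, !x.2)) := by
  simp [invRev]

/-- the case of two cyclically reduced words without cancellation in the middle -/
theorem core {A V : List (α × Bool)} (hA : IsCyclicallyReduced A) (hV : IsCyclicallyReduced V)
    (hA0 : A ≠ []) (hV0 : V ≠ [])
    (hJ : ∀ a ∈ A.getLast?, ∀ b ∈ V.head?, a.1 = b.1 → a.2 = b.2)
    (hcomm : (mk A : FreeGroup α) * mk V ≠ mk V * mk A) {m k : ℕ} (hm : 5 ≤ m) (hk : 5 ≤ k)
    (g W : FreeGroup α) (hW : AllPos W.toWord) (h : g * (mk A ^ m * mk V ^ k) * g⁻¹ = W) :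
    AllPos V ∨ AllNeg V := by
  set B := invRev V with hB
  have hBl : B.length = V.length := invRev_length
  have hB0 : B ≠ [] := invRev_ne hV0
  have hBc : IsCyclicallyReduced B := cyc_invRev hV
  have hVpos : 1 ≤ V.length := List.length_pos_iff.2 hV0
  have hApos : 1 ≤ A.length := List.length_pos_iff.2 hA0
  obtain ⟨C, R, S, h1, h2, h3⟩ := common_prefix (rep m A) (rep k B)
  have hl1 := congrArg List.length h1
  have hl2 := congrArg List.length h2
  rw [length_rep, List.length_append] at hl1 hl2
  rw [hBl] at hl2
  have hC : C.length < A.length + V.length := by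
    by_contra hge
    push Not at hge
    apply hcomm
    have h4 : A ++ B = B ++ A := by
      apply fineWilf
      intro j hj
      rw [hBl] at hj
      have e1 := getElem?_rep (L := A) m j (by omega)
      have e2 := getElem?_rep (L := B) k j (by rw [hBl]; omega)
      rw [h1, List.getElem?_append_left (by omega)] at e1
      rw [h2, List.getElem?_append_left (by omega)] at e2
      rw [← e1, ← e2]
    have h5 := congrArg (mk : _ → FreeGroup α) h4
    rw [← mul_mk, ← mul_mk, hB, ← inv_mk] at h5
    have h6 : (mk V : FreeGroup α) * (mk A * (mk V)⁻¹) * mk V = mk V * ((mk V)⁻¹ * mk A) * mk V := by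
      rw [h5]
    have e1 : (mk V : FreeGroup α) * (mk A * (mk V)⁻¹) * mk V = mk V * mk A := by group
    have e2 : (mk V : FreeGroup α) * ((mk V)⁻¹ * mk A) * mk V = mk A * mk V := by group
    rw [e1, e2] at h6
    exact h6.symm
  have hVk : rep k V = invRev S ++ invRev C := by
    rw [← invRev_append, ← h2, invRev_rep, hB, invRev_invRev]
  have hw : (g * mk C) * mk (R ++ invRev S) * (g * mk C)⁻¹ = W := by
    rw [← h, ← mk_rep, ← mk_rep, h1, hVk, ← mul_mk, ← mul_mk, ← mul_mk, ← inv_mk, ← inv_mk]
    group
  rcases eq_or_ne R [] with hR | hR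
  · left
    subst hR
    simp only [List.length_nil, Nat.add_zero] at hl1
    have hAV : A.length < V.length := by nlinarith
    refine lemmaT (P := []) (Q := invRev S) (R := invRev C) (n := k) hV hV0 (by
      rw [hVk]; simp) ?_ (g * mk C) W hW (by rw [List.nil_append] at hw; exact hw)
    rw [invRev_length]
    have : 5 * V.length ≤ k * V.length := Nat.mul_le_mul_right _ hk
    omega
  rcases eq_or_ne S [] with hS | hS
  · right
    subst hS
    simp only [List.length_nil, Nat.add_zero] at hl2
    have hAV : V.length < A.length := by nlinarith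
    have hpos : AllPos A := by
      refine lemmaT (P := C) (Q := R) (R := []) (n := m) hA hA0 (by
        rw [h1]; simp) ?_ (g * mk C) W hW (by
          have e : R ++ invRev ([] : List (α × Bool)) = R := by simp
          rw [e] at hw; exact hw)
      have : 5 * A.length ≤ m * A.length := Nat.mul_le_mul_right _ hm
      omega
    intro x hx
    have h5 : (x.1, !x.2) ∈ B := by rw [hB, mem_invRev]; simpa using hx
    have h6 : (x.1, !x.2) ∈ rep m A := by
      rw [h1, List.mem_append]
      left
      rw [List.append_nil] at h2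
      rw [← h2]
      obtain ⟨k', rfl⟩ := Nat.exists_eq_add_of_le' (show 1 ≤ k by omega)
      rw [rep_succ]; simp [h5]
    have h7 := hpos _ (mem_rep h6)
    simpa using h7
  · have hS' : invRev S ≠ [] := invRev_ne hS
    have hcyc : IsCyclicallyReduced (R ++ invRev S) := by
      rw [isCyclicallyReduced_iff, reduced_append]
      refine ⟨⟨red_mid (P := C) (R := []) (cyc_rep hA m).isReduced (by rw [h1]; simp),
        red_mid (P := []) (R := invRev C) (cyc_rep hV k).isReduced (by rw [hVk]; simp), ?_⟩, ?_⟩
      · have e1 : R.getLast? = A.getLast? := by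
          rw [← getLast?_rep hA0 (n := m) (by omega), h1, getLast?_append_ne hR]
        have e2 : (invRev S).head? = V.head? := by
          rw [← head?_rep hV0 (n := k) (by omega), hVk, head?_append_ne hS']
        rw [e1, e2]
        exact hJ
      · rw [getLast?_append_ne hS', head?_append_ne hR, getLast?_invRev]
        intro a ha b hb hab
        simp only [Option.mem_def, Option.map_eq_some_iff] at ha
        obtain ⟨s, hs, rfl⟩ := ha
        have hne := h3 b hb s hs
        simp only at hab ⊢
        have h8 : b.2 ≠ s.2 := fun h9 => hne (Prod.ext hab.symm h9)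
        revert h8
        cases b.2 <;> cases s.2 <;> simp
    have hpos := allPos_of_conj hcyc _ W hW hw
    have hposR : AllPos R := fun x hx => hpos x (by simp [hx])
    have hposS : AllPos (invRev S) := fun x hx => hpos x (List.mem_append.2 (Or.inr hx))
    have hVS : V.length ≤ (invRev S).length → AllPos V := by
      intro hle x hx
      exact hposS x (mem_infix (P := []) (Q := invRev S) (R := invRev C) (n := k) (by
        rw [hVk]; simp) hle x hx)
    have hk5 : 5 * V.length ≤ k * V.length := Nat.mul_le_mul_right _ hk
    have hm5 : 5 * A.length ≤ m * A.length := Nat.mul_le_mul_right _ hm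
    rcases Nat.lt_or_ge V.length A.length with hlt | hge
    · have hposA : AllPos A := by
        intro x hx
        exact hposR x (mem_infix (P := C) (Q := R) (R := []) (n := m) (by rw [h1]; simp)
          (by omega) x hx)
      rcases Nat.lt_or_ge C.length V.length with hc | hc
      · left
        apply hVS
        rw [invRev_length]; omega
      · right
        intro x hx
        have h5 : (x.1, !x.2) ∈ B := by rw [hB, mem_invRev]; simpa using hx
        have h6 : (x.1, !x.2) ∈ C := mem_infix (P := []) (Q := C) (R := S) (n := k) (by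
          rw [h2]; simp) (by omega) _ h5
        have h7 := hposA _ (mem_rep (n := m) (by rw [h1]; exact List.mem_append.2 (Or.inl h6)))
        simpa using h7
    · left
      apply hVS
      rw [invRev_length]; omega

end

end Pool.Agent.Q98.Pos
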