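import Pool.Agent.Q98.ChainA
import Pool.Agent.Q98.ChainB
import Pool.Agent.Q98.PosB
import Pool.Agent.Helper180.FreeMetric

/-!
# `[R, R] ≤ [S, S]` implies `R ≤ S` for a normal subgroup `R` of a free group
-/

set_option autoImplicit false

namespace Pool.Agent.Q98.Chain

open scoped commutatorElement
open Pool.Agent.Helper180.FreeMetric (centralizer_cyclic comm_trans zpow_of_subsingleton)

variable {X : Type}

theorem of_noncomm {x y : X} (hxy : x ≠ y) :
    (FreeGroup.of x : FreeGroup X) * FreeGroup.of y ≠ FreeGroup.of y * FreeGroup.of x := by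
  classical
  intro h
  have h1 : (FreeGroup.of x : FreeGroup X) * FreeGroup.of y =
    FreeGroup.mk [(x, true), (y, true)] := rfl
  have h2 : (FreeGroup.of y : FreeGroup X) * FreeGroup.of x =
    FreeGroup.mk [(y, true), (x, true)] := rfl
  rw [h1, h2] at h
  have h3 := congrArg FreeGroup.toWord h
  rw [Pool.Agent.Q98.Pos.toWord_mk_red (by simp [FreeGroup.isReduced_cons_cons]),
    Pool.Agent.Q98.Pos.toWord_mk_red (by simp [FreeGroup.isReduced_cons_cons])] at h3
  simp only [List.cons.injEq, Prod.mk.injEq, and_true] at h3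
  exact hxy h3.1

theorem abelian_normal {x y : X} (hxy : x ≠ y) (R : Subgroup (FreeGroup X)) (hR : R.Normal)
    (hab : ∀ r ∈ R, ∀ r' ∈ R, r * r' = r' * r) : ∀ r ∈ R, r = 1 := by
  intro r hr
  by_contra hr1
  obtain ⟨z, hz1, hz2⟩ := centralizer_cyclic r hr1
  obtain ⟨k, hk⟩ := hz2 r rfl
  have hz0 : z ≠ 1 := by
    rintro rfl
    rw [one_zpow] at hk
    exact hr1 hk
  have key : ∀ g : FreeGroup X, ∃ n : ℤ, g * z * g⁻¹ = z ^ n := by
    intro g
    have h1 : g * r * g⁻¹ ∈ R := hR.conj_mem r hr g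
    have h2 : g * r * g⁻¹ ≠ 1 := by
      intro h
      apply hr1
      have := congrArg (fun w => g⁻¹ * w * g) h
      simpa [mul_assoc] using this
    apply hz2
    refine comm_trans h2 ?_ (hab r hr _ h1)
    calc g * z * g⁻¹ * (g * r * g⁻¹) = g * (z * r) * g⁻¹ := by group
      _ = g * (r * z) * g⁻¹ := by rw [hz1]
      _ = g * r * g⁻¹ * (g * z * g⁻¹) := by group
  have hcen : ∀ g : FreeGroup X, g * z = z * g := by
    intro g
    obtain ⟨n, hn⟩ := key g
    obtain ⟨m, hm⟩ := key g⁻¹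
    rw [inv_inv] at hm
    have h1 : z = z ^ (n * m) := by
      calc z = g * (g⁻¹ * z * g) * g⁻¹ := by group
        _ = g * z ^ m * g⁻¹ := by rw [hm]
        _ = (g * z * g⁻¹) ^ m := by rw [conj_zpow]
        _ = z ^ (n * m) := by rw [hn, ← zpow_mul]
    have h2 : n * m = 1 := by
      have h3 : z ^ (n * m - 1) = 1 := by rw [zpow_sub, ← h1, zpow_one, mul_inv_cancel]
      by_contra hne
      have h4 : n * m - 1 ≠ 0 := by omega
      exact hz0 (zpow_left_injective h4 (by change z ^ (n * m - 1) = (1 : FreeGroup X) ^ (n * m - 1); rw [one_zpow]; exact h3))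
    rcases Int.isUnit_iff.1 (IsUnit.of_mul_eq_one m h2) with h3 | h3
    · rw [h3, zpow_one] at hn
      calc g * z = g * z * g⁻¹ * g := by group
        _ = z * g := by rw [hn]
    · exfalso
      rw [h3, zpow_neg, zpow_one] at hn
      exact hz0 (Pool.Agent.Q98.Pos.eq_one_of_conj_inv z g hn)
  exact of_noncomm hxy (comm_trans hz0 (hcen _) (hcen _))

/-- The main theorem for free groups with a basis. -/
theorem main_basis (R S : Subgroup (FreeGroup X)) (hR : R.Normal) (h : ⁅R, R⁆ ≤ ⁅S, S⁆)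
    {x y : X} (hxy : x ≠ y) : R ≤ S := by
  by_cases hab : ∀ r ∈ R, ∀ r' ∈ R, r * r' = r' * r
  · intro r hr
    rw [abelian_normal hxy R hR hab r hr]
    exact one_mem _
  push Not at hab
  obtain ⟨r1, hr1, r2, hr2, hne⟩ := hab
  haveI := hR
  have hRG : R ≤ S ⊔ R := le_sup_right
  have hSG : S ≤ S ⊔ R := le_sup_left
  have hcS : ⁅R, R⁆ ≤ S := h.trans (Subgroup.commutator_le_self S)
  let G : Subgroup (FreeGroup X) := S ⊔ R
  let Z : Type := IsFreeGroup.Generators G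
  let e : G ≃* FreeGroup Z := IsFreeGroup.toFreeGroup G
  -- two generators
  obtain ⟨z1, z2, hz⟩ : ∃ z1 z2 : Z, z1 ≠ z2 := by
    by_contra hno
    push Not at hno
    have hsub : Subsingleton Z := ⟨hno⟩
    apply hne
    have hcom : ∀ a b : FreeGroup Z, a * b = b * a := by
      intro a b
      rcases isEmpty_or_nonempty Z with hZ | ⟨⟨i⟩⟩
      · exact Subsingleton.elim _ _
      · obtain ⟨m, rfl⟩ := zpow_of_subsingleton hsub i a
        obtain ⟨n, rfl⟩ := zpow_of_subsingleton hsub i b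
        rw [← zpow_add, ← zpow_add, add_comm]
    have h1 := hcom (e ⟨r1, hRG hr1⟩) (e ⟨r2, hRG hr2⟩)
    rw [← map_mul, ← map_mul] at h1
    exact congrArg Subtype.val (e.injective h1)
  -- the subgroup `T`
  let T : Subgroup G := (R ⊓ S).subgroupOf G
  have hT : T.Normal := by
    constructor
    rintro ⟨t, htG⟩ ht ⟨g, hg⟩
    rw [Subgroup.mem_subgroupOf] at ht ⊢
    obtain ⟨htR, htS⟩ := ht
    simp only at htR htS
    refine ⟨hR.conj_mem t htR g, ?_⟩
    obtain ⟨s, hs, r, hr, rfl⟩ := Subgroup.mem_sup_of_normal_right.1 hg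
    have h1 : ⁅r, t⁆ ∈ S := hcS (Subgroup.commutator_mem_commutator hr htR)
    have h2 : s * r * t * (s * r)⁻¹ = s * (⁅r, t⁆ * t) * s⁻¹ := by
      rw [commutatorElement_def]; group
    change s * r * t * (s * r)⁻¹ ∈ S
    rw [h2]
    exact mul_mem (mul_mem hs (mul_mem h1 htS)) (inv_mem hs)
  let S1 : Subgroup (FreeGroup Z) := (S.subgroupOf G).map e.toMonoidHom
  let T1 : Subgroup (FreeGroup Z) := T.map e.toMonoidHom
  have hT1 : T1.Normal := hT.map e.toMonoidHom e.surjective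
  have hTS : T1 ≤ S1 := Subgroup.map_mono (Subgroup.comap_mono inf_le_right)
  have hT1ne : T1 ≠ ⊥ := by
    intro h0
    have h1 : ⁅r1, r2⁆ ∈ ⁅R, R⁆ := Subgroup.commutator_mem_commutator hr1 hr2
    have h2 : ⁅r1, r2⁆ ∈ R := Subgroup.commutator_le_self R h1
    have h3 : e ⟨⁅r1, r2⁆, hRG h2⟩ ∈ T1 :=
      Subgroup.mem_map_of_mem _ (Subgroup.mem_subgroupOf.2 ⟨h2, hcS h1⟩)
    rw [h0, Subgroup.mem_bot] at h3
    have h4 : (⟨⁅r1, r2⁆, hRG h2⟩ : G) = 1 := e.injective (by rw [h3, map_one])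
    have h5 : ⁅r1, r2⁆ = 1 := congrArg Subtype.val h4
    exact hne (commutatorElement_eq_one_iff_mul_comm.1 h5)
  have hS1 : S1 ⊓ ⁅(⊤ : Subgroup (FreeGroup Z)), ⊤⁆ ≤ ⁅S1, S1⁆ := by
    rintro w ⟨⟨⟨s, hsG⟩, hs, rfl⟩, hw⟩
    have hs' : s ∈ S := Subgroup.mem_subgroupOf.1 hs
    have h1 : (⟨s, hsG⟩ : G) ∈ (⁅(⊤ : Subgroup G), (⊤ : Subgroup G)⁆ : Subgroup G) := by
      have h2 : (⁅(⊤ : Subgroup (FreeGroup Z)), (⊤ : Subgroup (FreeGroup Z))⁆ : Subgroup (FreeGroup Z)) = (⁅(⊤ : Subgroup G), (⊤ : Subgroup G)⁆ : Subgroup G).map e.toMonoidHom := by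
        rw [Subgroup.map_commutator, Subgroup.map_top_of_surjective _ e.surjective]
      rw [h2] at hw
      obtain ⟨s2, hs2, hs3⟩ := hw
      have h3 : s2 = ⟨s, hsG⟩ := e.injective hs3
      rwa [h3] at hs2
    have h2 : s ∈ ⁅G, G⁆ := by
      have := Subgroup.mem_map_of_mem G.subtype h1
      have h3 : (⁅(⊤ : Subgroup G), (⊤ : Subgroup G)⁆ : Subgroup G).map G.subtype = ⁅G, G⁆ :=
        Subgroup.map_subtype_commutator G
      rwa [h3] at this
    have h3 : s ∈ ⁅S, S⁆ := stepA' hR h ⟨hs', h2⟩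
    have h4 : (⁅S.subgroupOf G, S.subgroupOf G⁆).map G.subtype = ⁅S, S⁆ := by
      rw [Subgroup.map_commutator, Subgroup.map_subgroupOf_eq_of_le hSG]
    rw [← h4] at h3
    obtain ⟨s2, hs2, hs3⟩ := h3
    have h5 : s2 = ⟨s, hsG⟩ := Subtype.ext hs3
    rw [h5] at hs2
    have h6 : ⁅S1, S1⁆ = (⁅S.subgroupOf G, S.subgroupOf G⁆).map e.toMonoidHom := by
      rw [Subgroup.map_commutator]
    rw [h6]
    exact Subgroup.mem_map_of_mem _ hs2
  have htop := stepB T1 hT1 hTS hT1ne hS1 hz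
  intro r hr
  have h1 : e ⟨r, hRG hr⟩ ∈ S1 := by rw [htop]; trivial
  obtain ⟨s2, hs2, hs3⟩ := h1
  have h2 : s2 = ⟨r, hRG hr⟩ := e.injective hs3
  rw [h2] at hs2
  exact Subgroup.mem_subgroupOf.1 hs2

end Pool.Agent.Q98.Chain
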