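import Pool.Agent.Q98.PosC

/-!
# The free group of rank two: infinite commutator width, and a generating set with finite
palindromic width
-/

set_option autoImplicit false

namespace Pool.Agent.Q98.CW

open FreeGroup List
open Pool.Agent.Q98.Pos
open scoped commutatorElement

/-- quasimorphisms with integer values are bounded on products of `k` commutators -/
theorem qm_comm {G : Type*} [Group G] (f : G → ℤ) (hinv : ∀ g, f g⁻¹ = - f g)
    (hf : ∀ g h, |f (g * h) - f g - f h| ≤ 3) (l : List G) (hl : ∀ c ∈ l, c ∈ commutatorSet G) :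
    |f l.prod| ≤ 12 * l.length := by
  have h1 : f 1 = 0 := by
    have := hinv 1
    rw [inv_one] at this
    omega
  induction l with
  | nil => simp [h1]
  | cons c l ih =>
    obtain ⟨x, y, rfl⟩ := hl c (by simp)
    have h2 := ih (fun c hc => hl c (by simp [hc]))
    rw [List.prod_cons, List.length_cons, commutatorElement_def]
    have a1 := hf x y
    have a2 := hf (x * y) x⁻¹
    have a3 := hf (x * y * x⁻¹) y⁻¹
    have a4 := hf (x * y * x⁻¹ * y⁻¹) l.prod
    rw [hinv] at a2 a3
    push_cast
    rw [abs_le] at *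
    constructor <;> linarith

/-- the alphabet -/
abbrev A2 : Type := Bool

/-- the weight of a pair of letters: `ab` counts `1`, `b⁻¹ a⁻¹` counts `-1`; here `a` is the
generator `true` and `b` is the generator `false` -/
def wt (x y : A2 × Bool) : ℤ :=
  if x = (true, true) ∧ y = (false, true) then 1
  else if x = (false, false) ∧ y = (true, false) then -1 else 0

/-- the counting function on words -/
def cnt : List (A2 × Bool) → ℤ
  | [] => 0
  | [_] => 0
  | x :: y :: l => wt x y + cnt (y :: l)

theorem wt_abs : ∀ x y : A2 × Bool, |wt x y| ≤ 1 := by decide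

theorem wt_inv : ∀ x y : A2 × Bool, wt (y.1, !y.2) (x.1, !x.2) = - wt x y := by decide

/-- junction weight -/
def jw (L M : List (A2 × Bool)) : ℤ :=
  match L.getLast?, M.head? with
  | some x, some y => wt x y
  | _, _ => 0

theorem jw_abs (L M : List (A2 × Bool)) : |jw L M| ≤ 1 := by
  unfold jw
  split
  · exact wt_abs _ _
  · simp

theorem cnt_append (L M : List (A2 × Bool)) : cnt (L ++ M) = cnt L + jw L M + cnt M := by
  induction L with
  | nil => simp [cnt, jw]
  | cons x L ih =>
    rcases L with _ | ⟨y, L⟩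
    · rcases M with _ | ⟨z, M⟩
      · simp [cnt, jw]
      · simp [cnt, jw]
    · have e : x :: y :: L ++ M = x :: y :: (L ++ M) := rfl
      rw [e]
      simp only [cnt]
      have e2 : y :: (L ++ M) = y :: L ++ M := rfl
      rw [e2, ih]
      have e3 : jw (x :: y :: L) M = jw (y :: L) M := by
        unfold jw; simp [List.getLast?_cons_cons]
      rw [e3]
      ring

theorem cnt_invRev (L : List (A2 × Bool)) : cnt (invRev L) = - cnt L := by
  induction L with
  | nil => simp [cnt]
  | cons x L ih =>
    rcases L with _ | ⟨y, L⟩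
    · simp [cnt, invRev]
    · have e : x :: y :: L = [x] ++ (y :: L) := rfl
      rw [e, invRev_append, cnt_append, ih, cnt_append]
      have e1 : invRev [x] = [(x.1, !x.2)] := by simp [invRev]
      have e2 : jw (invRev (y :: L)) (invRev [x]) = wt (y.1, !y.2) (x.1, !x.2) := by
        unfold jw
        rw [getLast?_invRev, e1]
        simp
      have e3 : jw [x] (y :: L) = wt x y := by simp [jw]
      rw [e2, e3, wt_inv, e1]
      simp [cnt]

/-- the quasimorphism -/
def qm (g : FreeGroup A2) : ℤ := cnt g.toWord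

theorem qm_inv (g : FreeGroup A2) : qm g⁻¹ = - qm g := by
  unfold qm
  rw [toWord_inv, cnt_invRev]

theorem qm_mul (g h : FreeGroup A2) : |qm (g * h) - qm g - qm h| ≤ 3 := by
  obtain ⟨C, R, S, h1, h2, h3⟩ := common_prefix (invRev g.toWord) h.toWord
  have h4 : g.toWord = invRev R ++ invRev C := by
    rw [← invRev_append, ← h1, invRev_invRev]
  have hgh : g * h = mk (invRev R ++ S) := by
    have e1 : g = mk (invRev R ++ invRev C) := by rw [← h4, mk_toWord]
    have e2 : h = mk (C ++ S) := by rw [← h2, mk_toWord]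
    rw [e1, e2]
    simp only [← mul_mk, ← inv_mk]
    group
  have hred : IsReduced (invRev R ++ S) := by
    rw [reduced_append]
    refine ⟨red_mid (P := []) (R := invRev C) isReduced_toWord (by rw [h4]; simp),
      red_mid (P := C) (R := []) isReduced_toWord (by rw [h2]; simp), ?_⟩
    intro x hx y hy hxy
    rw [getLast?_invRev] at hx
    simp only [Option.mem_def, Option.map_eq_some_iff] at hx
    obtain ⟨z, hz, rfl⟩ := hx
    have hne := h3 z hz y hy
    simp only at hxy ⊢
    have h8 : z.2 ≠ y.2 := fun h9 => hne (Prod.ext hxy h9)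
    revert h8
    cases z.2 <;> cases y.2 <;> simp
  have e0 : (g * h).toWord = invRev R ++ S := by rw [hgh, toWord_mk_red hred]
  unfold qm
  rw [e0, h4, h2, cnt_append, cnt_append, cnt_append, cnt_invRev C]
  have b1 := jw_abs (invRev R) S
  have b2 := jw_abs (invRev R) (invRev C)
  have b3 := jw_abs C S
  rw [abs_le] at *
  constructor <;> linarith

/-- the generators -/
def a : FreeGroup A2 := FreeGroup.of true
/-- the generators -/
def b : FreeGroup A2 := FreeGroup.of false

/-- the word `a b a⁻¹ b⁻¹` -/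
def cw : List (A2 × Bool) := [(true, true), (false, true), (true, false), (false, false)]

theorem mk_cw : mk cw = ⁅a, b⁆ := rfl

theorem cnt_rep (n : ℕ) : cnt (rep n cw) = n := by
  induction n with
  | zero => simp [rep_zero, cnt]
  | succ n ih =>
    rw [rep_succ, cnt_append, ih]
    have h1 : cnt cw = 1 := by decide
    have h2 : jw cw (rep n cw) = 0 := by
      rcases n with _ | n
      · simp [rep_zero, jw]
      · unfold jw
        rw [head?_rep (by simp [cw]) (by omega)]
        decide
    rw [h1, h2]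
    push_cast
    ring

theorem qm_pow (n : ℕ) : qm (⁅a, b⁆ ^ n) = n := by
  unfold qm
  have hc : IsCyclicallyReduced cw := by
    rw [isCyclicallyReduced_iff]
    refine ⟨by simp [cw, FreeGroup.isReduced_cons_cons], ?_⟩
    intro x hx y hy
    have hx' : x = (false, false) := by simpa [cw] using hx.symm
    have hy' : y = (true, true) := by simpa [cw] using hy.symm
    rw [hx', hy']
    simp
  rw [← mk_cw, ← mk_rep, toWord_mk_red (cyc_rep hc n).isReduced, cnt_rep]

/-- **The free group of rank two has infinite commutator width.** -/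
theorem infinite_cw : ¬ ∃ n : ℕ, ∀ g ∈ commutator (FreeGroup A2), ∃ l : List (FreeGroup A2),
    l.length ≤ n ∧ (∀ c ∈ l, c ∈ commutatorSet (FreeGroup A2)) ∧ l.prod = g := by
  rintro ⟨n, hn⟩
  have hmem : ⁅a, b⁆ ^ (12 * n + 1) ∈ commutator (FreeGroup A2) := by
    refine pow_mem ?_ _
    exact Subgroup.commutator_mem_commutator (Subgroup.mem_top _) (Subgroup.mem_top _)
  obtain ⟨l, hl1, hl2, hl3⟩ := hn _ hmem
  have h1 := qm_comm qm qm_inv qm_mul l hl2
  rw [hl3, qm_pow] at h1
  have h2 : (12 * (l.length : ℤ)) ≤ 12 * n := by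
    have : (l.length : ℤ) ≤ n := by exact_mod_cast hl1
    linarith
  rw [abs_le] at h1
  push_cast at h1
  linarith [h1.2]

/-! ### palindromes -/

/-- the generating set `{a, b, ab}` -/
def S : Finset (FreeGroup A2) := {a, b, a * b}

/-- letters -/
def Let (x : FreeGroup A2) : Prop := x ∈ S ∨ x⁻¹ ∈ S

theorem let_inv {x : FreeGroup A2} (h : Let x) : Let x⁻¹ := by
  unfold Let at *
  rw [inv_inv]
  exact h.symm

theorem let_a : Let a := Or.inl (by simp [S])
theorem let_b : Let b := Or.inl (by simp [S])
theorem let_ab : Let (a * b) := Or.inl (by simp [S])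

/-- the values of the reversals of the relators -/
def K : Subgroup (FreeGroup A2) where
  carrier := {g | ∃ r : List (FreeGroup A2), (∀ x ∈ r, Let x) ∧ r.prod = 1 ∧ r.reverse.prod = g}
  mul_mem' := by
    rintro g h ⟨r, hr1, hr2, hr3⟩ ⟨s, hs1, hs2, hs3⟩
    refine ⟨s ++ r, ?_, ?_, ?_⟩
    · intro x hx
      rcases List.mem_append.1 hx with h | h
      · exact hs1 x h
      · exact hr1 x h
    · rw [List.prod_append, hr2, hs2, mul_one]
    · rw [List.reverse_append, List.prod_append, hr3, hs3]
  one_mem' := ⟨[], by simp, rfl, rfl⟩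
  inv_mem' := by
    rintro g ⟨r, hr1, hr2, hr3⟩
    refine ⟨(r.map (·⁻¹)).reverse, ?_, ?_, ?_⟩
    · intro x hx
      rw [List.mem_reverse, List.mem_map] at hx
      obtain ⟨y, hy, rfl⟩ := hx
      exact let_inv (hr1 y hy)
    · rw [← List.prod_inv_reverse, hr2, inv_one]
    · rw [List.reverse_reverse, ← hr3, List.prod_inv_reverse, List.map_reverse,
        List.reverse_reverse]

theorem mem_K {g : FreeGroup A2} : g ∈ K ↔
    ∃ r : List (FreeGroup A2), (∀ x ∈ r, Let x) ∧ r.prod = 1 ∧ r.reverse.prod = g := Iff.rfl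

theorem K_conj_letter {v : FreeGroup A2} (hv : Let v) {g : FreeGroup A2} (hg : g ∈ K) :
    v * g * v⁻¹ ∈ K := by
  obtain ⟨r, hr1, hr2, hr3⟩ := mem_K.1 hg
  refine mem_K.2 ⟨v⁻¹ :: (r ++ [v]), ?_, ?_, ?_⟩
  · intro x hx
    rcases List.mem_cons.1 hx with rfl | hx
    · exact let_inv hv
    · rcases List.mem_append.1 hx with h | h
      · exact hr1 x h
      · rw [List.mem_singleton.1 h]; exact hv
  · simp [hr2]
  · simp [hr3, mul_assoc]

theorem closure_ab : Subgroup.closure ({a, b} : Set (FreeGroup A2)) = ⊤ := by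
  rw [eq_top_iff, ← FreeGroup.closure_range_of]
  refine Subgroup.closure_mono ?_
  rintro _ ⟨x, rfl⟩
  cases x
  · right; rfl
  · left; rfl

theorem K_normal : K.Normal := by
  constructor
  intro g hg h
  have key : ∀ h ∈ Subgroup.closure ({a, b} : Set (FreeGroup A2)), ∀ g ∈ K, h * g * h⁻¹ ∈ K := by
    intro h hh
    induction hh using Subgroup.closure_induction'' with
    | mem x hx =>
      intro g hg
      refine K_conj_letter ?_ hg
      rcases hx with rfl | hx
      · exact let_a
      · rw [Set.mem_singleton_iff.1 hx]; exact let_b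
    | inv_mem x hx =>
      intro g hg
      refine K_conj_letter ?_ hg
      rcases hx with rfl | hx
      · exact let_inv let_a
      · rw [Set.mem_singleton_iff.1 hx]; exact let_inv let_b
    | one => intro g hg; simpa using hg
    | mul x y _ _ hx hy =>
      intro g hg
      have := hx _ (hy g hg)
      have e : x * y * g * (x * y)⁻¹ = x * (y * g * y⁻¹) * x⁻¹ := by group
      rw [e]; exact this
  exact key h (by rw [closure_ab]; trivial) g hg

theorem comm_mem_K : a⁻¹ * b⁻¹ * (a * b) ∈ K := by
  refine mem_K.2 ⟨[a * b, b⁻¹, a⁻¹], ?_, ?_, ?_⟩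
  · intro x hx
    simp only [List.mem_cons, List.not_mem_nil, or_false] at hx
    rcases hx with rfl | rfl | rfl
    · exact let_ab
    · exact let_inv let_b
    · exact let_inv let_a
  · simp
  · simp [mul_assoc]

/-- every element is `a ^ m * b ^ n * k` with `k ∈ K` -/
theorem decomp (g : FreeGroup A2) : ∃ m n : ℤ, ∃ k ∈ K, g = a ^ m * b ^ n * k := by
  haveI := K_normal
  let Q := FreeGroup A2 ⧸ K
  let π : FreeGroup A2 →* Q := QuotientGroup.mk' K
  have hab : π a * π b = π b * π a := by
    rw [← _root_.map_mul, ← _root_.map_mul]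
    have h1 : π (a⁻¹ * b⁻¹ * (a * b)) = 1 := (QuotientGroup.eq_one_iff _).2 comm_mem_K
    have h2 : a * b = b * a * (a⁻¹ * b⁻¹ * (a * b)) := by group
    conv_lhs => rw [h2]
    rw [_root_.map_mul, h1, mul_one]
  have hcomm : Commute (π a) (π b) := hab
  have key : ∀ g ∈ Subgroup.closure ({a, b} : Set (FreeGroup A2)), ∃ m n : ℤ,
      π g = π a ^ m * π b ^ n := by
    intro g hg
    induction hg using Subgroup.closure_induction with
    | mem x hx =>
      rcases hx with rfl | hx
      · exact ⟨1, 0, by simp⟩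
      · rw [Set.mem_singleton_iff.1 hx]; exact ⟨0, 1, by simp⟩
    | one => exact ⟨0, 0, by simp⟩
    | mul x y _ _ hx hy =>
      obtain ⟨m, n, h1⟩ := hx
      obtain ⟨m', n', h2⟩ := hy
      refine ⟨m + m', n + n', ?_⟩
      rw [_root_.map_mul, h1, h2, zpow_add, zpow_add]
      have := (hcomm.zpow_zpow m' n).eq
      calc π a ^ m * π b ^ n * (π a ^ m' * π b ^ n')
          = π a ^ m * (π b ^ n * π a ^ m') * π b ^ n' := by group
        _ = π a ^ m * (π a ^ m' * π b ^ n) * π b ^ n' := by rw [this]
        _ = π a ^ m * π a ^ m' * (π b ^ n * π b ^ n') := by group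
    | inv x _ hx =>
      obtain ⟨m, n, h1⟩ := hx
      refine ⟨-m, -n, ?_⟩
      rw [_root_.map_inv, h1, mul_inv_rev, ← zpow_neg, ← zpow_neg]
      exact ((hcomm.zpow_zpow (-m) (-n)).eq).symm
  obtain ⟨m, n, h⟩ := key g (by rw [closure_ab]; trivial)
  refine ⟨m, n, (a ^ m * b ^ n)⁻¹ * g, ?_, by group⟩
  rw [← QuotientGroup.eq_one_iff]
  change π _ = 1
  rw [_root_.map_mul, _root_.map_inv, _root_.map_mul, map_zpow, map_zpow, h, inv_mul_cancel]

/-- powers of a letter are palindromes -/
theorem pal_zpow {x : FreeGroup A2} (hx : Let x) (m : ℤ) :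
    ∃ w : List (FreeGroup A2), w.reverse = w ∧ (∀ y ∈ w, Let y) ∧ w.prod = x ^ m := by
  rcases Int.natAbs_eq m with h | h
  · refine ⟨List.replicate m.natAbs x, by simp, ?_, ?_⟩
    · intro y hy; rw [List.eq_of_mem_replicate hy]; exact hx
    · rw [List.prod_replicate, ← zpow_natCast]
      exact congrArg _ h.symm
  · refine ⟨List.replicate m.natAbs x⁻¹, by simp, ?_, ?_⟩
    · intro y hy; rw [List.eq_of_mem_replicate hy]; exact let_inv hx
    · rw [List.prod_replicate, inv_pow, ← zpow_natCast, ← zpow_neg]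
      exact congrArg _ h.symm

/-- **Finite palindromic width.** -/
theorem finite_pw : Subgroup.closure (S : Set (FreeGroup A2)) = ⊤ ∧
    ∃ n : ℕ, ∀ g : FreeGroup A2, ∃ L : List (List (FreeGroup A2)), L.length ≤ n ∧
      (∀ w ∈ L, w.reverse = w ∧ ∀ x ∈ w, x ∈ S ∨ x⁻¹ ∈ S) ∧ (L.map List.prod).prod = g := by
  refine ⟨?_, 3, fun g => ?_⟩
  · rw [eq_top_iff, ← closure_ab]
    refine Subgroup.closure_mono ?_
    rintro x hx
    rcases hx with rfl | hx
    · simp [S]
    · rw [Set.mem_singleton_iff.1 hx]; simp [S]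
  · obtain ⟨m, n, k, hk, rfl⟩ := decomp g
    obtain ⟨w1, h1, h2, h3⟩ := pal_zpow let_a m
    obtain ⟨w2, h4, h5, h6⟩ := pal_zpow let_b n
    obtain ⟨r, hr1, hr2, hr3⟩ := mem_K.1 hk
    refine ⟨[w1, w2, r ++ r.reverse], by simp, ?_, ?_⟩
    · intro w hw
      simp only [List.mem_cons, List.not_mem_nil, or_false] at hw
      rcases hw with rfl | rfl | rfl
      · exact ⟨h1, h2⟩
      · exact ⟨h4, h5⟩
      · refine ⟨by simp, ?_⟩
        intro x hx
        rcases List.mem_append.1 hx with h | h
        · exact hr1 x h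
        · exact hr1 x (List.mem_reverse.1 h)
    · simp only [List.map_cons, List.map_nil, List.prod_cons, List.prod_nil, mul_one,
        List.prod_append, h3, h6, hr2, hr3, one_mul, mul_assoc]

end Pool.Agent.Q98.CW
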