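import Mathlib.GroupTheory.FreeGroup.Reduce
import Mathlib.GroupTheory.Index
import Mathlib.Data.Set.Card
import Mathlib.Data.Fintype.Prod
import Mathlib.Tactic

/-!
# Layers in the coset graph of a subgroup of finite index of `F_2`
-/

set_option autoImplicit false

namespace Pool.Agent.Q98.Coset

/-- the free group on two letters -/
abbrev F : Type := FreeGroup (Fin 2)

/-- the letters `a, b, a⁻¹, b⁻¹` -/
abbrev Letter : Type := Fin 2 × Bool

/-- the element of the free group given by a letter -/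
def el (h : Letter) : F := FreeGroup.mk [h]

/-- the inverse letter -/
def inv (h : Letter) : Letter := (h.1, !h.2)

theorem inv_inv' (h : Letter) : inv (inv h) = h := by simp [inv]

theorem el_inv (h : Letter) : el (inv h) = (el h)⁻¹ := by
  simp [el, inv, FreeGroup.inv_mk, FreeGroup.invRev]

variable {H : Subgroup F}

/-- the endpoint of an edge -/
def tgt (e : (F ⧸ H) × Letter) : F ⧸ H := el e.2 • e.1

theorem tgt_inv (e : (F ⧸ H) × Letter) : tgt (tgt e, inv e.2) = e.1 := by
  simp [tgt, el_inv]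

/-- `T n` is the set of the endpoints of the walks of length `n - 2` from `y` -/
def T (y : F ⧸ H) : ℕ → Set (F ⧸ H)
  | 0 => ∅
  | 1 => ∅
  | 2 => {y}
  | (n + 3) => {s | ∃ e : (F ⧸ H) × Letter, e.1 ∈ T y (n + 2) ∧ tgt e = s}

theorem T_step (y : F ⧸ H) {n : ℕ} {e : (F ⧸ H) × Letter} (h : e.1 ∈ T y n) :
    tgt e ∈ T y (n + 1) := by
  match n, h with
  | 0, h => exact absurd h (Set.notMem_empty _)
  | 1, h => exact absurd h (Set.notMem_empty _)
  | (n + 2), h => exact ⟨e, h, rfl⟩

theorem T_mono (y : F ⧸ H) : ∀ n, T y n ⊆ T y (n + 2)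
  | 0 => Set.empty_subset _
  | 1 => Set.empty_subset _
  | 2 => by
    intro x hx
    have h1 : tgt (x, ((0, true) : Letter)) ∈ T y 3 := T_step y (n := 2) hx
    have h2 := T_step y (n := 3) (e := (tgt (x, ((0, true) : Letter)), inv (0, true))) h1
    rwa [tgt_inv (x, ((0, true) : Letter))] at h2
  | (n + 3) => by
    rintro x ⟨e, he, rfl⟩
    exact ⟨e, T_mono y (n + 2) he, rfl⟩

/-- the edges of the `i`-th step -/
def ES (y : F ⧸ H) (i : ℕ) : Set ((F ⧸ H) × Letter) := {e | e.1 ∈ T y (i + 1) ∧ tgt e ∉ T y i}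

/-- the layers -/
def L (y : F ⧸ H) (n : ℕ) : Set (F ⧸ H) := T y (n + 2) \ T y n

theorem ES_zero (y : F ⧸ H) : ES y 0 = ∅ := by
  ext e
  simp [ES, T]

theorem count (y : F ⧸ H) [Finite (F ⧸ H)] (j : ℕ) :
    4 * (L y j).ncard = (ES y (j + 1)).ncard + (ES y j).ncard := by
  classical
  have h1 : (L y j ×ˢ (Set.univ : Set Letter)).ncard = 4 * (L y j).ncard := by
    rw [Set.ncard_prod, Set.ncard_univ]
    simp
    ring
  set f : (F ⧸ H) × Letter → (F ⧸ H) × Letter := fun e => (tgt e, inv e.2) with hf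
  have hff : ∀ e, f (f e) = e := by
    intro e
    simp only [hf]
    rw [inv_inv']
    exact Prod.ext (tgt_inv e) rfl
  have h2 : L y j ×ˢ (Set.univ : Set Letter) = ES y (j + 1) ∪ f '' ES y j := by
    ext e
    simp only [Set.mem_prod, Set.mem_univ, and_true, Set.mem_union]
    constructor
    · rintro ⟨ha, hb⟩
      by_cases hc : tgt e ∈ T y (j + 1)
      · right
        refine ⟨f e, ⟨hc, ?_⟩, hff e⟩
        simp only [hf]
        rw [tgt_inv]
        exact hb
      · left
        exact ⟨ha, hc⟩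
    · rintro (⟨ha, hb⟩ | ⟨e', ⟨ha, hb⟩, rfl⟩)
      · exact ⟨ha, fun h => hb (T_step y h)⟩
      · exact ⟨T_step y ha, hb⟩
  have h3 : Disjoint (ES y (j + 1)) (f '' ES y j) := by
    rw [Set.disjoint_left]
    rintro _ ⟨ha, hb⟩ ⟨e', ⟨hc, hd⟩, rfl⟩
    apply hb
    simp only [hf]
    rw [tgt_inv]
    exact hc
  rw [← h1, h2, Set.ncard_union_eq h3 (Set.toFinite _) (Set.toFinite _),
    Set.ncard_image_of_injective _ (fun a b hab => by rw [← hff a, hab, hff b])]

theorem four_dvd (y : F ⧸ H) [Finite (F ⧸ H)] (j : ℕ) : 4 ∣ (ES y j).ncard := by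
  induction j with
  | zero => rw [ES_zero]; simp
  | succ j ih =>
    have h := count y j
    exact (Nat.dvd_add_left ih).1 (h ▸ Dvd.intro _ rfl)

theorem four_le (y : F ⧸ H) [Finite (F ⧸ H)] {j : ℕ} (h : (ES y j).Nonempty) :
    4 ≤ (ES y j).ncard :=
  Nat.le_of_dvd ((Set.ncard_pos (Set.toFinite _)).2 h) (four_dvd y j)

theorem ES_down (y : F ⧸ H) {j : ℕ} (h : (ES y (j + 2)).Nonempty) : (ES y (j + 1)).Nonempty := by
  by_contra hne
  rw [Set.not_nonempty_iff_eq_empty] at hne
  obtain ⟨e, he1, he2⟩ := h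
  apply he2
  obtain ⟨e', he3, he4⟩ := he1
  have h1 : tgt e' ∈ T y (j + 1) := by
    by_contra h2
    have : e' ∈ ES y (j + 1) := ⟨he3, h2⟩
    rw [hne] at this
    exact this
  rw [he4] at h1
  exact T_step y h1

theorem card_T (y : F ⧸ H) [Finite (F ⧸ H)] (n : ℕ) :
    (T y (n + 2)).ncard = (T y n).ncard + (L y n).ncard := by
  rw [L, ← Set.ncard_sdiff_add_ncard_of_subset (T_mono y n) (Set.toFinite _)]
  ring

theorem lower (y : F ⧸ H) [Finite (F ⧸ H)] : ∀ n : ℕ, (ES y (n + 1)).Nonempty →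
    2 * n + 1 ≤ (T y (n + 2)).ncard + (T y (n + 1)).ncard
  | 0 => by
    intro _
    simp [T]
  | (n + 1) => by
    intro h
    have h0 := ES_down y h
    have h1 := lower y n h0
    have h2 := four_le y h
    have h3 := four_le y h0
    have h4 := count y (n + 1)
    have h5 : (T y (n + 1 + 2)).ncard = (T y (n + 1)).ncard + (L y (n + 1)).ncard :=
      card_T y (n + 1)
    have h6 : (T y (n + 1 + 1)).ncard = (T y (n + 2)).ncard := rfl
    omega

/-- **The bound.** -/
theorem bound (y : F ⧸ H) [Finite (F ⧸ H)] (i : ℕ) (h : (ES y i).Nonempty) :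
    i ≤ H.index := by
  rcases i with _ | n
  · exact Nat.zero_le _
  · have h1 := lower y n h
    have h2 := four_le y h
    have h3 := count y (n + 1)
    have h4 : (T y (n + 3)).ncard = (T y (n + 1)).ncard + (L y (n + 1)).ncard :=
      card_T y (n + 1)
    have h5 : (T y (n + 2)).ncard ≤ H.index := by
      rw [Subgroup.index, ← Set.ncard_univ]
      exact Set.ncard_le_ncard (Set.subset_univ _) (Set.toFinite _)
    have h6 : (T y (n + 3)).ncard ≤ H.index := by
      rw [Subgroup.index, ← Set.ncard_univ]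
      exact Set.ncard_le_ncard (Set.subset_univ _) (Set.toFinite _)
    omega

end Pool.Agent.Q98.Coset
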