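import Mathlib.GroupTheory.FreeGroup.CyclicallyReduced
import Mathlib.Data.List.Rotate
import Mathlib.Tactic

/-!
# Powers and positive elements of free groups: lists
-/

set_option autoImplicit false

namespace Pool.Agent.Q98.Pos

open FreeGroup List

variable {α : Type*}

/-- repetition of a list -/
def rep (n : ℕ) (L : List (α × Bool)) : List (α × Bool) := (List.replicate n L).flatten

theorem rep_zero (L : List (α × Bool)) : rep 0 L = [] := rfl

theorem rep_succ (n : ℕ) (L : List (α × Bool)) : rep (n + 1) L = L ++ rep n L := by
  simp [rep, List.replicate_succ]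

theorem rep_succ' (n : ℕ) (L : List (α × Bool)) : rep (n + 1) L = rep n L ++ L := by
  induction n with
  | zero => simp [rep_succ, rep_zero]
  | succ n ih =>
    rw [rep_succ, ih, ← List.append_assoc, ← rep_succ, ih]

theorem length_rep (n : ℕ) (L : List (α × Bool)) : (rep n L).length = n * L.length := by
  simp [rep]

theorem mk_rep (n : ℕ) (L : List (α × Bool)) : mk (rep n L) = mk L ^ n := by
  induction n with
  | zero => simp [rep_zero, ← FreeGroup.one_eq_mk]
  | succ n ih => rw [rep_succ', ← mul_mk, ih, pow_succ]

theorem getElem?_rep {L : List (α × Bool)} : ∀ (n j : ℕ), j < n * L.length →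
    (rep n L)[j]? = L[j % L.length]? := by
  intro n
  induction n with
  | zero => intro j hj; simp at hj
  | succ n ih =>
    intro j hj
    rw [rep_succ]
    rcases Nat.lt_or_ge j L.length with h | h
    · rw [List.getElem?_append_left h, Nat.mod_eq_of_lt h]
    · rw [List.getElem?_append_right h, ih _ (by
        have : (n + 1) * L.length = n * L.length + L.length := by ring
        omega), Nat.mod_eq_sub_mod h]

/-- If the periodic sequences of two words agree on a segment of length the sum of the periods, then
the words commute. -/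
theorem fineWilf (V B : List (α × Bool))
    (h : ∀ j, j < V.length + B.length → V[j % V.length]? = B[j % B.length]?) :
    V ++ B = B ++ V := by
  apply List.ext_getElem?
  intro i
  rcases Nat.lt_or_ge i (V.length + B.length) with hi | hi
  · rcases Nat.lt_or_ge i V.length with h1 | h1
    · rw [List.getElem?_append_left h1]
      rcases Nat.lt_or_ge i B.length with h2 | h2
      · rw [List.getElem?_append_left h2]
        have := h i hi
        rwa [Nat.mod_eq_of_lt h1, Nat.mod_eq_of_lt h2] at this
      · rw [List.getElem?_append_right h2]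
        have e1 := h i hi
        have e2 := h (i - B.length) (by omega)
        rw [Nat.mod_eq_of_lt h1, Nat.mod_eq_sub_mod h2] at e1
        rw [Nat.mod_eq_of_lt (by omega : i - B.length < V.length)] at e2
        rw [e1, e2]
    · rw [List.getElem?_append_right h1]
      have e1 := h i hi
      have e2 := h (i - V.length) (by omega)
      rcases Nat.lt_or_ge i B.length with h2 | h2
      · rw [List.getElem?_append_left h2]
        rw [Nat.mod_eq_of_lt h2, Nat.mod_eq_sub_mod h1] at e1
        rw [Nat.mod_eq_of_lt (by omega : i - V.length < B.length)] at e2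
        rw [← e1, ← e2]
      · rw [List.getElem?_append_right h2]
        have e3 := h (i - B.length) (by omega)
        rw [Nat.mod_eq_of_lt (by omega : i - V.length < B.length),
          ← Nat.mod_eq_sub_mod h1] at e2
        rw [Nat.mod_eq_of_lt (by omega : i - B.length < V.length),
          ← Nat.mod_eq_sub_mod h2] at e3
        rw [← e2, e3, e1]
  · rw [List.getElem?_eq_none (by simp; omega), List.getElem?_eq_none (by simp; omega)]

theorem head?_rot (L : List (α × Bool)) (hL : L ≠ []) (j : ℕ) :
    (L.rotate j).head? = L[j % L.length]? := by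
  rw [← List.rotate_mod, List.head?_rotate (Nat.mod_lt _ (List.length_pos_iff.2 hL))]

/-- Simultaneous rotation of two words is a simultaneous conjugation as long as the letters which
are moved agree. -/
theorem rot_conj (V B : List (α × Bool)) (hV : V ≠ []) (hB : B ≠ []) :
    ∀ j : ℕ, (∀ i, i < j → V[i % V.length]? = B[i % B.length]?) →
      ∃ g : FreeGroup α, mk (V.rotate j) = g⁻¹ * mk V * g ∧ mk (B.rotate j) = g⁻¹ * mk B * g := by
  intro j
  induction j with
  | zero => intro _; exact ⟨1, by simp, by simp⟩
  | succ j ih =>
    intro h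
    obtain ⟨g, h1, h2⟩ := ih (fun i hi => h i (by omega))
    have h3 := h j (by omega)
    rw [← head?_rot V hV, ← head?_rot B hB] at h3
    have hV' : V.rotate j ≠ [] := by
      rw [Ne, List.rotate_eq_nil_iff]; exact hV
    have hB' : B.rotate j ≠ [] := by
      rw [Ne, List.rotate_eq_nil_iff]; exact hB
    obtain ⟨x, V0, hx⟩ := List.exists_cons_of_ne_nil hV'
    obtain ⟨y, B0, hy⟩ := List.exists_cons_of_ne_nil hB'
    rw [hx, hy] at h3
    simp only [List.head?_cons, Option.some.injEq] at h3
    subst h3
    have e1 : V.rotate (j + 1) = V0 ++ [x] := by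
      rw [← List.rotate_rotate, hx]; simp
    have e2 : B.rotate (j + 1) = B0 ++ [x] := by
      rw [← List.rotate_rotate, hy]; simp
    have key : ∀ T : List (α × Bool), mk (T ++ [x]) = (mk [x])⁻¹ * mk (x :: T) * mk [x] := by
      intro T
      have : x :: T = [x] ++ T := rfl
      rw [this, ← mul_mk, ← mul_mk]
      group
    refine ⟨g * mk [x], ?_, ?_⟩
    · rw [e1, key, ← hx, h1]; group
    · rw [e2, key, ← hy, h2]; group

theorem reduced_append {L M : List (α × Bool)} : IsReduced (L ++ M) ↔
    IsReduced L ∧ IsReduced M ∧ ∀ a ∈ L.getLast?, ∀ b ∈ M.head?, a.1 = b.1 → a.2 = b.2 :=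
  List.isChain_append

theorem red_mid {P Q R T : List (α × Bool)} (hT : IsReduced T) (h : P ++ Q ++ R = T) :
    IsReduced Q := by
  rw [← h, reduced_append, reduced_append] at hT
  exact hT.1.2.1

theorem cyc_iff {L : List (α × Bool)} (hL : L ≠ []) :
    IsCyclicallyReduced L ↔ IsReduced (L ++ L) := by
  rw [reduced_append, isCyclicallyReduced_iff]
  tauto

theorem cyc_rot1 {L : List (α × Bool)} (h : IsCyclicallyReduced L) :
    IsCyclicallyReduced (L.rotate 1) := by
  rcases L with _ | ⟨x, t⟩
  · simpa using h
  · have e : (x :: t).rotate 1 = t ++ [x] := by simp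
    rw [e, cyc_iff (by simp)]
    have h3 := (h.flatten_replicate 3).isReduced
    refine red_mid (P := [x]) (R := t) h3 ?_
    simp [List.replicate_succ]

theorem cyc_rot {L : List (α × Bool)} (h : IsCyclicallyReduced L) (j : ℕ) :
    IsCyclicallyReduced (L.rotate j) := by
  induction j with
  | zero => simpa using h
  | succ j ih => rw [← List.rotate_rotate]; exact cyc_rot1 ih

theorem cyc_rep {L : List (α × Bool)} (h : IsCyclicallyReduced L) (n : ℕ) :
    IsCyclicallyReduced (rep n L) := h.flatten_replicate n

theorem mem_invRev {L : List (α × Bool)} {x : α × Bool} :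
    x ∈ invRev L ↔ (x.1, !x.2) ∈ L := by
  simp only [invRev, List.mem_reverse, List.mem_map]
  constructor
  · rintro ⟨a, ha, rfl⟩; simpa using ha
  · intro h; exact ⟨_, h, by simp⟩

theorem reduced_invRev {L : List (α × Bool)} (h : IsReduced L) : IsReduced (invRev L) := by
  classical
  rw [isReduced_iff_reduce_eq, reduce_invRev, h.reduce_eq]

theorem invRev_ne {L : List (α × Bool)} (h : L ≠ []) : invRev L ≠ [] := by
  intro h'
  apply h
  have := congrArg List.length h'
  rw [invRev_length] at this
  exact List.length_eq_zero_iff.1 this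

theorem cyc_invRev {L : List (α × Bool)} (h : IsCyclicallyReduced L) :
    IsCyclicallyReduced (invRev L) := by
  rcases eq_or_ne L [] with rfl | hL
  · simp
  · rw [cyc_iff (invRev_ne hL), ← invRev_append]
    exact reduced_invRev ((cyc_iff hL).1 h)

theorem invRev_rep (n : ℕ) (L : List (α × Bool)) : invRev (rep n L) = rep n (invRev L) := by
  induction n with
  | zero => simp [rep_zero]
  | succ n ih => rw [rep_succ, invRev_append, ih, rep_succ']

/-- longest common prefix -/
theorem common_prefix : ∀ (L M : List (α × Bool)), ∃ C R S, L = C ++ R ∧ M = C ++ S ∧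
    ∀ x ∈ R.head?, ∀ y ∈ S.head?, x ≠ y := by
  intro L
  induction L with
  | nil => intro M; exact ⟨[], [], M, rfl, rfl, by simp⟩
  | cons a L ih =>
    intro M
    rcases M with _ | ⟨b, M⟩
    · exact ⟨[], a :: L, [], rfl, rfl, by simp⟩
    · rcases Classical.em (a = b) with rfl | hab
      · obtain ⟨C, R, S, h1, h2, h3⟩ := ih M
        exact ⟨a :: C, R, S, by rw [h1]; rfl, by rw [h2]; rfl, h3⟩
      · refine ⟨[], a :: L, b :: M, rfl, rfl, ?_⟩
        simpa using hab

end Pool.Agent.Q98.Pos
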