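import Pool.Agent.Q98.PosB

/-!
# Powers and positive elements of free groups: the main lemma
-/

set_option autoImplicit false

namespace Pool.Agent.Q98.Pos

open FreeGroup List

variable {α : Type*}

theorem not_cyc {L : List (α × Bool)} (hL : IsReduced L) (h : ¬ IsCyclicallyReduced L) :
    ∃ (x : α × Bool) (M : List (α × Bool)), L = x :: (M ++ [(x.1, !x.2)]) := by
  rw [isCyclicallyReduced_iff] at h
  push Not at h
  obtain ⟨a, ha, b, hb, h1, h2⟩ := h hL
  rcases L with _ | ⟨c, M⟩
  · simp at hb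
  · have hcb : c = b := by simpa using hb
    subst hcb
    have hM : M ≠ [] := by
      rintro rfl
      have : c = a := by simpa using ha
      exact h2 (by rw [this])
    obtain ⟨M', d, rfl⟩ : ∃ M' d, M = M' ++ [d] :=
      ⟨M.dropLast, M.getLast hM, (List.dropLast_append_getLast hM).symm⟩
    have had : d = a := by
      have e : c :: (M' ++ [d]) = (c :: M') ++ [d] := rfl
      rw [e, List.getLast?_append_of_ne_nil _ (by simp)] at ha
      simpa using ha
    subst had
    refine ⟨c, M', ?_⟩
    have : d = (c.1, !c.2) := by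
      refine Prod.ext h1 ?_
      revert h2
      cases d.2 <;> cases c.2 <;> simp
    rw [this]

section
variable [DecidableEq α]

theorem cyc_of_pow {g : FreeGroup α} {m : ℕ} (hm : 1 ≤ m)
    (h : IsCyclicallyReduced (g ^ m).toWord) : IsCyclicallyReduced g.toWord := by
  obtain ⟨n, rfl⟩ := Nat.exists_eq_add_of_le' hm
  have hr : IsReduced g.toWord := isReduced_toWord
  have e1 : (g ^ (n + 1)).toWord = reduce (List.replicate (n + 1) g.toWord).flatten := by
    have : g ^ (n + 1) = mk (rep (n + 1) g.toWord) := by rw [mk_rep, mk_toWord]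
    rw [this, toWord_mk]; rfl
  rw [e1, reduceCyclically.reduce_flatten_replicate_succ hr] at h
  have hdec := reduceCyclically.conj_conjugator_reduceCyclically g.toWord
  rcases eq_or_ne (reduceCyclically.conjugator g.toWord) [] with hs | hs
  · rw [hs] at hdec
    simp only [List.nil_append, invRev_empty, List.append_nil] at hdec
    rw [← hdec]
    exact reduceCyclically.isCyclicallyReduced hr
  · exfalso
    obtain ⟨x, s, hx⟩ := List.exists_cons_of_ne_nil hs
    rw [hx, isCyclicallyReduced_iff] at h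
    have h2 := h.2 (x.1, !x.2) (by
      rw [List.getLast?_append_of_ne_nil _ (invRev_ne (by simp)), getLast?_invRev]
      simp) x (by simp) rfl
    revert h2
    simp

/-- One step of the minimisation. -/
theorem step {p q W : FreeGroup α} (hq : q ≠ 1) (g : FreeGroup α)
    (hW : AllPos W.toWord) (h : g * (p * q) * g⁻¹ = W)
    (hmin : ∀ x : FreeGroup α, p.norm + q.norm ≤ (x⁻¹ * p * x).norm + (x⁻¹ * q * x).norm) :
    IsCyclicallyReduced p.toWord := by
  by_contra hc
  obtain ⟨x, M, hp⟩ := not_cyc isReduced_toWord hc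
  have hpx : (mk [x])⁻¹ * p * mk [x] = mk M := by
    have e0 : p = mk (x :: (M ++ [(x.1, !x.2)])) := by rw [← hp, mk_toWord]
    have e1 : x :: (M ++ [(x.1, !x.2)]) = [x] ++ M ++ invRev [x] := by simp [invRev]
    rw [e0, e1, ← mul_mk, ← mul_mk, ← inv_mk]
    group
  have hnp : p.norm = M.length + 2 := by
    unfold FreeGroup.norm; rw [hp]; simp
  have hm1 := hmin (mk [x])
  rw [hpx, hnp] at hm1
  have hM := norm_mk_le (L₁ := M)
  have hq2 : q.norm + 2 ≤ ((mk [x])⁻¹ * q * mk [x]).norm := by omega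
  have hnx : (mk [x] : FreeGroup α).norm ≤ 1 := norm_mk_le (L₁ := [x])
  have hnx' : ((mk [x] : FreeGroup α)⁻¹).norm ≤ 1 := by rw [norm_inv_eq]; exact hnx
  have hqw : q.toWord ≠ [] := by rwa [Ne, toWord_eq_nil_iff]
  have hhead : q.toWord.head? ≠ some x := by
    intro hh
    obtain ⟨y, T, hT⟩ := List.exists_cons_of_ne_nil hqw
    rw [hT] at hh
    simp only [List.head?_cons, Option.some.injEq] at hh
    subst hh
    have e0 : (mk [y])⁻¹ * q = mk T := by
      have : q = mk (y :: T) := by rw [← hT, mk_toWord]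
      have e1 : y :: T = [y] ++ T := rfl
      rw [this, e1, ← mul_mk]; group
    have e1 : q.norm = T.length + 1 := by unfold FreeGroup.norm; rw [hT]; simp
    have e2 := norm_mul_le ((mk [y])⁻¹ * q) (mk [y])
    rw [e0] at e2 hq2
    have e3 := norm_mk_le (L₁ := T)
    omega
  have hlast : q.toWord.getLast? ≠ some (x.1, !x.2) := by
    intro hh
    obtain ⟨T, y, hT⟩ : ∃ T y, q.toWord = T ++ [y] :=
      ⟨_, _, (List.dropLast_append_getLast hqw).symm⟩
    rw [hT] at hh
    have hy : y = (x.1, !x.2) := by simpa using hh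
    have e0 : q * mk [x] = mk T := by
      have : q = mk (T ++ [y]) := by rw [← hT, mk_toWord]
      have e1 : T ++ [y] = T ++ invRev [x] := by rw [hy]; simp [invRev]
      rw [this, e1, ← mul_mk, ← inv_mk]; group
    have e1 : q.norm = T.length + 1 := by unfold FreeGroup.norm; rw [hT]; simp
    have e2 := norm_mul_le (mk [x])⁻¹ (q * mk [x])
    rw [← mul_assoc] at e2
    rw [e0] at e2
    have e3 := norm_mk_le (L₁ := T)
    omega
  have hcyc : IsCyclicallyReduced (p.toWord ++ q.toWord) := by
    rw [isCyclicallyReduced_iff, reduced_append]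
    refine ⟨⟨isReduced_toWord, isReduced_toWord, ?_⟩, ?_⟩
    · intro a ha b hb hab
      have ha' : a = (x.1, !x.2) := by
        have e : x :: (M ++ [(x.1, !x.2)]) = (x :: M) ++ [(x.1, !x.2)] := rfl
        rw [hp, e, List.getLast?_append_of_ne_nil _ (by simp)] at ha
        simpa using ha.symm
      subst ha'
      have hbx : b ≠ x := by
        rintro rfl; exact hhead hb
      have : b.2 ≠ x.2 := fun h9 => hbx (Prod.ext hab.symm h9)
      revert this
      simp only
      cases b.2 <;> cases x.2 <;> simp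
    · intro a ha b hb hab
      rw [getLast?_append_ne hqw] at ha
      rw [hp] at hb
      have hb' : b = x := by simpa using hb.symm
      subst hb'
      have hax : a ≠ (b.1, !b.2) := by
        rintro rfl; exact hlast ha
      have : a.2 ≠ !b.2 := fun h9 => hax (Prod.ext hab h9)
      revert this
      cases a.2 <;> cases b.2 <;> simp
  have hpos := allPos_of_conj hcyc g W hW (by rw [← mul_mk, mk_toWord, mk_toWord]; exact h)
  have h1 := hpos x (by rw [hp]; simp)
  have h2 := hpos (x.1, !x.2) (by rw [hp]; simp)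
  simp [h1] at h2

/-- **Main lemma.** -/
theorem main {a v : FreeGroup α} (hcomm : a * v ≠ v * a) {m k : ℕ} (hm : 5 ≤ m) (hk : 5 ≤ k)
    (g W : FreeGroup α) (hW : AllPos W.toWord) (h : g * (a ^ m * v ^ k) * g⁻¹ = W) :
    ∃ (c : FreeGroup α) (L : List (α × Bool)), L ≠ [] ∧ c⁻¹ * v * c = mk L ∧
      (AllPos L ∨ AllNeg L) := by
  -- minimise
  obtain ⟨t, ht⟩ : ∃ t : FreeGroup α, ∀ s : FreeGroup α,
      (t⁻¹ * a ^ m * t).norm + (t⁻¹ * v ^ k * t).norm ≤
      (s⁻¹ * a ^ m * s).norm + (s⁻¹ * v ^ k * s).norm := by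
    obtain ⟨t, -, ht⟩ := WellFounded.has_min (measure (fun s : FreeGroup α =>
      (s⁻¹ * a ^ m * s).norm + (s⁻¹ * v ^ k * s).norm)).wf Set.univ ⟨1, trivial⟩
    exact ⟨t, fun s => not_lt.1 (ht s trivial)⟩
  set a' := t⁻¹ * a * t with ha'
  set v' := t⁻¹ * v * t with hv'
  have epow : ∀ (z : FreeGroup α) (n : ℕ), (t⁻¹ * z * t) ^ n = t⁻¹ * z ^ n * t := by
    intro z n
    have := conj_pow (a := t⁻¹) (b := z) (i := n)
    rw [inv_inv] at this
    exact this
  have hcomm' : a' * v' ≠ v' * a' := by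
    intro h'
    apply hcomm
    have e1 : a * v = t * (a' * v') * t⁻¹ := by rw [ha', hv']; group
    have e2 : v * a = t * (v' * a') * t⁻¹ := by rw [ha', hv']; group
    rw [e1, e2, h']
  have hmin : ∀ x : FreeGroup α, (a' ^ m).norm + (v' ^ k).norm ≤
      (x⁻¹ * a' ^ m * x).norm + (x⁻¹ * v' ^ k * x).norm := by
    intro x
    have e1 := ht (t * x)
    have e2 : (t * x)⁻¹ * a ^ m * (t * x) = x⁻¹ * a' ^ m * x := by
      rw [ha', epow]; group
    have e3 : (t * x)⁻¹ * v ^ k * (t * x) = x⁻¹ * v' ^ k * x := by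
      rw [hv', epow]; group
    rw [e2, e3] at e1
    rw [ha', hv', epow, epow]
    rw [ha', hv', epow, epow] at e1
    exact e1
  have hconj1 : (g * t) * (a' ^ m * v' ^ k) * (g * t)⁻¹ = W := by
    rw [← h, ha', hv', epow, epow]; group
  have hconj2 : (g * t * a' ^ m) * (v' ^ k * a' ^ m) * (g * t * a' ^ m)⁻¹ = W := by
    rw [← hconj1]; group
  have ha1 : a' ≠ 1 := by rintro h1; apply hcomm'; rw [h1]; group
  have hv1 : v' ≠ 1 := by rintro h1; apply hcomm'; rw [h1]; group
  have hpa : a' ^ m ≠ 1 := by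
    intro h1
    apply ha1
    exact pow_left_injective (n := m) (by omega) (by simpa using h1)
  have hpv : v' ^ k ≠ 1 := by
    intro h1
    apply hv1
    exact pow_left_injective (n := k) (by omega) (by simpa using h1)
  have hA : IsCyclicallyReduced a'.toWord := cyc_of_pow (by omega) (step hpv _ hW hconj1 hmin)
  have hV : IsCyclicallyReduced v'.toWord := cyc_of_pow (by omega) (step hpa _ hW hconj2
    (fun x => by have := hmin x; omega))
  set A := a'.toWord with hAdef
  set V := v'.toWord with hVdef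
  have hA0 : A ≠ [] := by rwa [Ne, toWord_eq_nil_iff]
  have hV0 : V ≠ [] := by rwa [Ne, toWord_eq_nil_iff]
  set B := invRev A with hB
  have hB0 : B ≠ [] := invRev_ne hA0
  have hBc : IsCyclicallyReduced B := cyc_invRev hA
  have hex : ∃ j, V[j % V.length]? ≠ B[j % B.length]? := by
    by_contra hno
    push Not at hno
    apply hcomm'
    have h4 := fineWilf V B (fun j _ => hno j)
    have h5 := congrArg (mk : _ → FreeGroup α) h4
    rw [← mul_mk, ← mul_mk, hB, ← inv_mk, hAdef, hVdef, mk_toWord, mk_toWord] at h5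
    -- v' a'⁻¹ = a'⁻¹ v'
    have h6 : a' * (v' * a'⁻¹) * a' = a' * (a'⁻¹ * v') * a' := by rw [h5]
    have e1 : a' * (v' * a'⁻¹) * a' = a' * v' := by group
    have e2 : a' * (a'⁻¹ * v') * a' = v' * a' := by group
    rw [e1, e2] at h6
    exact h6
  classical
  set j := Nat.find hex with hj
  have hj1 : V[j % V.length]? ≠ B[j % B.length]? := Nat.find_spec hex
  have hj2 : ∀ i, i < j → V[i % V.length]? = B[i % B.length]? := by
    intro i hi
    have := Nat.find_min hex hi
    push Not at this
    exact this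
  obtain ⟨c, hc1, hc2⟩ := rot_conj V B hV0 hB0 j hj2
  rw [hVdef, mk_toWord, ← hVdef] at hc1
  have hc3 : mk (invRev (B.rotate j)) = c⁻¹ * a' * c := by
    rw [← inv_mk, hc2, hB, ← inv_mk, hAdef, mk_toWord]; group
  have hVr0 : V.rotate j ≠ [] := by rw [Ne, List.rotate_eq_nil_iff]; exact hV0
  have hBr0 : B.rotate j ≠ [] := by rw [Ne, List.rotate_eq_nil_iff]; exact hB0
  have epow' : ∀ (z : FreeGroup α) (n : ℕ), (c⁻¹ * z * c) ^ n = c⁻¹ * z ^ n * c := by
    intro z n
    have := conj_pow (a := c⁻¹) (b := z) (i := n)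
    rw [inv_inv] at this
    exact this
  have hfin := core (A := invRev (B.rotate j)) (V := V.rotate j) (cyc_invRev (cyc_rot hBc j))
    (cyc_rot hV j) (invRev_ne hBr0) hVr0 ?_ ?_ hm hk (g * t * c) W hW ?_
  · refine ⟨t * c, V.rotate j, hVr0, ?_, hfin⟩
    rw [hc1, hv']; group
  · intro x hx y hy hxy
    rw [getLast?_invRev, head?_rot B hB0] at hx
    rw [head?_rot V hV0] at hy
    simp only [Option.mem_def, Option.map_eq_some_iff] at hx
    obtain ⟨b, hb, rfl⟩ := hx
    have hby : b ≠ y := by
      rintro rfl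
      exact hj1 (by rw [hb]; exact hy)
    simp only at hxy ⊢
    have h8 : b.2 ≠ y.2 := fun h9 => hby (Prod.ext hxy h9)
    revert h8
    cases b.2 <;> cases y.2 <;> simp
  · rw [hc1, hc3]
    intro h'
    apply hcomm'
    have e1 : a' * v' = c * (c⁻¹ * a' * c * (c⁻¹ * v' * c)) * c⁻¹ := by group
    have e2 : v' * a' = c * (c⁻¹ * v' * c * (c⁻¹ * a' * c)) * c⁻¹ := by group
    rw [e1, e2, h']
  · rw [hc1, hc3, epow', epow', ← hconj1]; group

end

end Pool.Agent.Q98.Pos
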