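import Mathlib.GroupTheory.RegularWreathProduct
import Mathlib.GroupTheory.Solvable
import Mathlib.Data.ZMod.Basic
import Mathlib.Tactic

/-!
# A unimodular equation over soluble groups
-/

set_option autoImplicit false

namespace Pool.Agent.Q98.Uni

open scoped commutatorElement

/-- The data used: elements `g`, `c` deep in the derived series of `G`, with
`g ^ 6 = c ^ 7 = 1`, `g c g⁻¹ = c ^ 3`. -/
structure Good (G : Type) [Group G] (n : ℕ) (g c : G) : Prop where
  hg : g ∈ derivedSeries G n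
  hc : c ∈ derivedSeries G (n + 1)
  g6 : g ^ 6 = 1
  c7 : c ^ 7 = 1
  rel : g * c * g⁻¹ = c ^ 3
  ne : c ≠ 1
  der : derivedSeries G (n + 2) = ⊥

section wreath

variable {D Q : Type} [Group D] [CommGroup Q]

/-- the elements of the base group with coordinates in the `n`-th derived subgroup -/
def S (D Q : Type) [Group D] [CommGroup Q] (n : ℕ) : Subgroup (RegularWreathProduct D Q) where
  carrier := {x | x.right = 1 ∧ ∀ j, x.left j ∈ derivedSeries D n}
  mul_mem' := by
    rintro x y ⟨hx1, hx2⟩ ⟨hy1, hy2⟩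
    refine ⟨by simp [hx1, hy1], fun j => ?_⟩
    rw [RegularWreathProduct.mul_left, hx1]
    simpa using mul_mem (hx2 j) (hy2 j)
  one_mem' := ⟨rfl, fun j => by simp [one_mem]⟩
  inv_mem' := by
    rintro x ⟨hx1, hx2⟩
    refine ⟨by simp [hx1], fun j => ?_⟩
    rw [RegularWreathProduct.inv_left, hx1]
    simpa using hx2 j

theorem mem_S {n : ℕ} {x : RegularWreathProduct D Q} :
    x ∈ S D Q n ↔ x.right = 1 ∧ ∀ j, x.left j ∈ derivedSeries D n := Iff.rfl

theorem derived_le (n : ℕ) : derivedSeries (RegularWreathProduct D Q) (n + 1) ≤ S D Q n := by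
  induction n with
  | zero =>
    rw [derivedSeries_succ, Subgroup.commutator_le]
    intro x _ y _
    refine mem_S.2 ⟨?_, fun j => by simp⟩
    simp only [commutatorElement_def, RegularWreathProduct.mul_right,
      RegularWreathProduct.inv_right]
    rw [mul_comm x.right, mul_inv_cancel_right, mul_inv_cancel]
  | succ n ih =>
    rw [derivedSeries_succ, Subgroup.commutator_le]
    intro x hx y hy
    obtain ⟨hx1, hx2⟩ := mem_S.1 (ih hx)
    obtain ⟨hy1, hy2⟩ := mem_S.1 (ih hy)
    refine mem_S.2 ⟨by simp [commutatorElement_def, hx1, hy1], fun j => ?_⟩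
    have : (⁅x, y⁆ : RegularWreathProduct D Q).left j = ⁅x.left j, y.left j⁆ := by
      simp [commutatorElement_def, hx1, hy1]
    rw [this, derivedSeries_succ]
    exact Subgroup.commutator_mem_commutator (hx2 j) (hy2 j)

theorem derived_bot {n : ℕ} (h : derivedSeries D n = ⊥) :
    derivedSeries (RegularWreathProduct D Q) (n + 1) = ⊥ := by
  rw [eq_bot_iff]
  intro x hx
  obtain ⟨h1, h2⟩ := mem_S.1 (derived_le n hx)
  rw [Subgroup.mem_bot]
  refine RegularWreathProduct.ext ?_ h1
  funext j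
  have := h2 j
  rw [h, Subgroup.mem_bot] at this
  exact this

end wreath

section step

/-- the cyclic group of order three -/
abbrev C3 : Type := Multiplicative (ZMod 3)

variable {G : Type} [Group G]

open RegularWreathProduct

/-- the coordinate embeddings -/
def ι (q : C3) : G →* RegularWreathProduct G C3 where
  toFun k := ⟨Pi.mulSingle q k, 1⟩
  map_one' := by ext <;> simp
  map_mul' k l := by ext <;> simp [Pi.mulSingle_mul]

/-- the generator of the top group -/
def σ (G : Type) [Group G] : RegularWreathProduct G C3 :=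
  RegularWreathProduct.inl (Multiplicative.ofAdd (1 : ZMod 3))

theorem σ_conj (q : C3) (k : G) :
    σ G * ι q k * (σ G)⁻¹ = ι (Multiplicative.ofAdd (1 : ZMod 3) * q) k := by
  refine RegularWreathProduct.ext ?_ ?_
  · funext x
    simp only [σ, ι, MonoidHom.coe_mk, OneHom.coe_mk, RegularWreathProduct.mul_left,
      RegularWreathProduct.inv_left, RegularWreathProduct.left_inl,
      RegularWreathProduct.right_inl, RegularWreathProduct.mul_right, Pi.mul_apply, Pi.one_apply,
      one_mul, inv_one, mul_one]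
    rcases eq_or_ne x (Multiplicative.ofAdd (1 : ZMod 3) * q) with rfl | hx
    · simp
    · rw [Pi.mulSingle_eq_of_ne hx, Pi.mulSingle_eq_of_ne]
      intro h
      apply hx
      rw [← h]; simp
  · simp [σ, ι]

theorem ι_comm {q q' : C3} (h : q ≠ q') (k l : G) : ι q k * ι q' l = ι q' l * ι q k := by
  refine RegularWreathProduct.ext ?_ (by simp [ι])
  funext x
  simp only [ι, MonoidHom.coe_mk, OneHom.coe_mk, RegularWreathProduct.mul_left, inv_one, one_mul,
    Pi.mul_apply]
  rcases eq_or_ne x q with rfl | hx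
  · rw [Pi.mulSingle_eq_of_ne h]; simp
  · rw [Pi.mulSingle_eq_of_ne hx]; simp

/-- the three indices -/
def e0 : C3 := Multiplicative.ofAdd 0
/-- the three indices -/
def e1 : C3 := Multiplicative.ofAdd 1
/-- the three indices -/
def e2 : C3 := Multiplicative.ofAdd 2

theorem s0 (k : G) : σ G * ι e0 k * (σ G)⁻¹ = ι e1 k := by
  rw [σ_conj]; congr 1
theorem s1 (k : G) : σ G * ι e1 k * (σ G)⁻¹ = ι e2 k := by
  rw [σ_conj]; congr 1

theorem A_zero (k : G) :
    ι e0 k * (ι e1 k)⁻¹ ∈ derivedSeries (RegularWreathProduct G C3) 1 := by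
  have h : ι e0 k * (ι e1 k)⁻¹ = ⁅ι e0 k, σ G⁆ := by
    rw [commutatorElement_def, ← s0]; group
  rw [h, derivedSeries_succ]
  exact Subgroup.commutator_mem_commutator (Subgroup.mem_top _) (Subgroup.mem_top _)

theorem B_of_A {n : ℕ} (hA : ∀ k ∈ derivedSeries G n,
    ι e0 k * (ι e1 k)⁻¹ ∈ derivedSeries (RegularWreathProduct G C3) (n + 1)) :
    ∀ k ∈ derivedSeries G (n + 1),
      ι e0 k ∈ derivedSeries (RegularWreathProduct G C3) (n + 2) := by
  have key : derivedSeries G (n + 1) ≤
      (derivedSeries (RegularWreathProduct G C3) (n + 2)).comap (ι e0) := by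
    rw [derivedSeries_succ, Subgroup.commutator_le]
    intro k hk l hl
    rw [Subgroup.mem_comap, derivedSeries_succ]
    have h1 := hA k hk
    have h2 := hA l hl
    have h3 : ι e0 l * (ι e2 l)⁻¹ ∈ derivedSeries (RegularWreathProduct G C3) (n + 1) := by
      have h4 := (derivedSeries_normal (RegularWreathProduct G C3) (n + 1)).conj_mem _ h2 (σ G)
      have h5 := mul_mem h2 h4
      have h6 : σ G * (ι e0 l * (ι e1 l)⁻¹) * (σ G)⁻¹ = ι e1 l * (ι e2 l)⁻¹ := by
        rw [← s0, ← s1, ← s0]; group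
      rw [h6] at h5
      have h7 : ι e0 l * (ι e1 l)⁻¹ * (ι e1 l * (ι e2 l)⁻¹) = ι e0 l * (ι e2 l)⁻¹ := by group
      rwa [h7] at h5
    have h8 : (ι e0 ⁅k, l⁆ : RegularWreathProduct G C3) =
        ⁅ι e0 k * (ι e1 k)⁻¹, ι e0 l * (ι e2 l)⁻¹⁆ := by
      have c1 : ι e1 k * ι e0 l = ι e0 l * ι e1 k := ι_comm (by decide) _ _
      have c2 : ι e1 k * ι e2 l = ι e2 l * ι e1 k := ι_comm (by decide) _ _
      have c3 : ι e2 l * ι e0 k = ι e0 k * ι e2 l := ι_comm (by decide) _ _
      have c4 : ι e2 l * ι e0 l = ι e0 l * ι e2 l := ι_comm (by decide) _ _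
      have c5 : ι e1 k * ι e0 k = ι e0 k * ι e1 k := ι_comm (by decide) _ _
      generalize ι e1 k = b at *
      generalize ι e2 l = d at *
      have hkl : (ι e0 ⁅k, l⁆ : RegularWreathProduct G C3) = ⁅ι e0 k, ι e0 l⁆ :=
        map_commutatorElement _ _ _
      rw [hkl]
      generalize ι e0 k = a at *
      generalize ι e0 l = c at *
      rw [commutatorElement_def, commutatorElement_def]
      have C1 : Commute b⁻¹ c := (show Commute b c from c1).inv_left
      have C2 : Commute b⁻¹ d⁻¹ := (show Commute b d from c2).inv_left.inv_right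
      have C3' : Commute d⁻¹ a⁻¹ := (show Commute d a from c3).inv_left.inv_right
      have C5 : Commute b a⁻¹ := (show Commute b a from c5).inv_right
      calc a * c * a⁻¹ * c⁻¹ = a * c * (d⁻¹ * a⁻¹) * d * c⁻¹ := by rw [C3'.eq]; group
        _ = a * c * b⁻¹ * (b * (d⁻¹ * a⁻¹)) * d * c⁻¹ := by group
        _ = a * c * b⁻¹ * (d⁻¹ * b * a⁻¹) * d * c⁻¹ := by
            have : b * (d⁻¹ * a⁻¹) = d⁻¹ * b * a⁻¹ := by
              have : b * d⁻¹ = d⁻¹ * b := ((show Commute b d from c2).inv_right).eq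
              rw [← mul_assoc, this]
            rw [this]
        _ = a * (c * b⁻¹) * d⁻¹ * (b * a⁻¹) * d * c⁻¹ := by group
        _ = a * (b⁻¹ * c) * d⁻¹ * (b * a⁻¹) * d * c⁻¹ := by rw [C1.eq]
        _ = a * b⁻¹ * (c * d⁻¹) * (a * b⁻¹)⁻¹ * (c * d⁻¹)⁻¹ := by group
    rw [h8]
    exact Subgroup.commutator_mem_commutator h1 h3
  exact key

theorem A_all (n : ℕ) : ∀ k ∈ derivedSeries G n,
    ι e0 k * (ι e1 k)⁻¹ ∈ derivedSeries (RegularWreathProduct G C3) (n + 1) := by
  induction n with
  | zero => intro k _; exact A_zero k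
  | succ n ih =>
    intro k hk
    have h1 := B_of_A ih k hk
    refine mul_mem h1 (inv_mem ?_)
    rw [← s0]
    exact (derivedSeries_normal (RegularWreathProduct G C3) (n + 2)).conj_mem _ h1 (σ G)

theorem ι_inj (q : C3) : Function.Injective (ι q : G →* RegularWreathProduct G C3) := by
  intro k l h
  have := congrArg (fun x => x.left q) h
  simpa [ι] using this

theorem good_step {n : ℕ} {g c : G} (h : Good G n g c) :
    Good (RegularWreathProduct G C3) (n + 1) (ι e0 g * (ι e1 g)⁻¹) (ι e0 c) := by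
  have c1 : Commute (ι e0 g : RegularWreathProduct G C3) (ι e1 g)⁻¹ :=
    (show Commute (ι e0 g) (ι e1 g) from ι_comm (by decide) _ _).inv_right
  have c2 : Commute (ι e1 g : RegularWreathProduct G C3)⁻¹ (ι e0 c) :=
    (show Commute (ι e1 g) (ι e0 c) from ι_comm (by decide) _ _).inv_left
  refine ⟨A_all n g h.hg, B_of_A (A_all n) c h.hc, ?_, ?_, ?_, ?_, derived_bot h.der⟩
  · rw [c1.mul_pow, inv_pow, ← map_pow, ← map_pow, h.g6]; simp
  · rw [← map_pow, h.c7, map_one]
  · rw [← map_pow, ← h.rel, map_mul, map_mul, map_inv]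
    calc ι e0 g * (ι e1 g)⁻¹ * ι e0 c * (ι e0 g * (ι e1 g)⁻¹)⁻¹
        = ι e0 g * ((ι e1 g)⁻¹ * ι e0 c) * (ι e1 g) * (ι e0 g)⁻¹ := by group
      _ = ι e0 g * (ι e0 c * (ι e1 g)⁻¹) * (ι e1 g) * (ι e0 g)⁻¹ := by rw [c2.eq]
      _ = ι e0 g * ι e0 c * (ι e0 g)⁻¹ := by group
  · intro h1
    apply h.ne
    apply ι_inj e0
    rw [h1, map_one]

end step

section base

/-- the cyclic group of order seven -/
abbrev C7 : Type := Multiplicative (ZMod 7)
/-- the cyclic group of order six -/
abbrev C6 : Type := Multiplicative (ZMod 6)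

/-- the top generator of the base example -/
def g0 : RegularWreathProduct C7 C6 := ⟨1, Multiplicative.ofAdd 1⟩
/-- the eigenvector of the base example -/
def c0 : RegularWreathProduct C7 C6 :=
  ⟨fun i => Multiplicative.ofAdd (3 ^ (-(Multiplicative.toAdd i)).val : ZMod 7), 1⟩

theorem good_base : Good (RegularWreathProduct C7 C6) 0 g0 c0 := by
  have hrel : g0 * c0 * g0⁻¹ = c0 ^ 3 := by
    have e : c0 ^ 3 = c0 * c0 * c0 := by rw [pow_succ, sq]
    rw [e]
    refine RegularWreathProduct.ext ?_ ?_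
    · funext i
      simp only [g0, c0, RegularWreathProduct.mul_left, RegularWreathProduct.mul_right,
        RegularWreathProduct.inv_left, Pi.mul_apply, Pi.one_apply, Pi.inv_apply]
      revert i
      decide
    · simp [g0, c0]
  have hc7 : c0 ^ 7 = 1 := by
    have e : c0 ^ 7 = c0 * c0 * c0 * c0 * c0 * c0 * c0 := by
      simp only [pow_succ, pow_zero, one_mul]
    rw [e]
    refine RegularWreathProduct.ext ?_ ?_
    · funext i
      simp only [c0, RegularWreathProduct.mul_left, RegularWreathProduct.mul_right,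
        Pi.mul_apply, RegularWreathProduct.one_left, Pi.one_apply]
      revert i
      decide
    · simp [c0]
  refine ⟨Subgroup.mem_top _, ?_, ?_, hc7, hrel, ?_, ?_⟩
  · have h1 : ⁅g0, c0 ^ 4⁆ = c0 := by
      rw [commutatorElement_def]
      have h2 : g0 * c0 ^ 4 * g0⁻¹ = (c0 ^ 3) ^ 4 := by
        rw [← hrel, conj_pow]
      rw [h2, ← pow_mul]
      calc c0 ^ (3 * 4) * (c0 ^ 4)⁻¹ = c0 * c0 ^ 7 := by group
        _ = c0 := by rw [hc7, mul_one]
    rw [← h1, zero_add, derivedSeries_succ]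
    exact Subgroup.commutator_mem_commutator (Subgroup.mem_top _) (Subgroup.mem_top _)
  · have e : g0 ^ 6 = g0 * g0 * g0 * g0 * g0 * g0 := by
      simp only [pow_succ, pow_zero, one_mul]
    rw [e]
    refine RegularWreathProduct.ext ?_ ?_
    · simp [g0, funext_iff]
    · simp only [g0, RegularWreathProduct.mul_right]
      decide
  · intro h
    have := congrArg (fun x => x.left 1) h
    revert this
    simp only [c0]
    decide
  · refine derived_bot ?_
    rw [derivedSeries_succ, eq_bot_iff, Subgroup.commutator_le]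
    intro x _ y _
    rw [Subgroup.mem_bot, commutatorElement_def, mul_comm x y]
    group

end base

/-- the tower -/
theorem exists_good (n : ℕ) : ∃ (G : Type) (_ : Group G) (g c : G), Finite G ∧ Good G n g c := by
  induction n with
  | zero => exact ⟨RegularWreathProduct C7 C6, inferInstance, g0, c0, inferInstance, good_base⟩
  | succ n ih =>
    obtain ⟨G, hG, g, c, hf, h⟩ := ih
    exact ⟨RegularWreathProduct G C3, inferInstance, _, _, inferInstance, good_step h⟩

theorem abel_aux {A : Type*} [AddCommGroup A] (h0 h1 h2 h3 h4 h5 : A) :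
    (h4 - h5 + h0) + (h3 - h4 + h5) - (h1 - h2 + h3) - (h0 - h1 + h2) = 0 := by abel

theorem comm_aux {A : Type*} [CommGroup A] (h0 h1 h2 h3 h4 h5 : A) :
    (h4 * h5⁻¹ * h0) * (h3 * h4⁻¹ * h5) * (h1 * h2⁻¹ * h3)⁻¹ * (h0 * h1⁻¹ * h2)⁻¹ = 1 := by
  have := abel_aux (A := Additive A) h0 h1 h2 h3 h4 h5
  simp only [sub_eq_add_neg] at this
  exact this

/-- **The equation has no solution.** -/
theorem no_solution {G : Type} [Group G] {n : ℕ} {g c : G} (hG : Good G n g c)
    {H : Type*} [Group H] (i : G →* H) (hi : Function.Injective i)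
    (hH : derivedSeries H (n + 2) = ⊥) (h : H) :
    h * (i g * h⁻¹ * (i g)⁻¹) * (i g ^ 2 * h * (i g ^ 2)⁻¹) ≠ i c := by
  intro heq
  set a := i g with ha
  set γ := i c with hγ
  have ha1 : a ∈ derivedSeries H n :=
    map_derivedSeries_le_derivedSeries i n (Subgroup.mem_map_of_mem i hG.hg)
  have hγ1 : γ ∈ derivedSeries H (n + 1) :=
    map_derivedSeries_le_derivedSeries i (n + 1) (Subgroup.mem_map_of_mem i hG.hc)
  have hmem : ∀ m, m ≤ n + 1 → h ∈ derivedSeries H m := by
    intro m
    induction m with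
    | zero => intro _; exact Subgroup.mem_top _
    | succ m ih =>
      intro hm
      have h1 : h ∈ derivedSeries H m := ih (by omega)
      have h2 : a ∈ derivedSeries H m := derivedSeries_antitone H (by omega) ha1
      have h3 : γ ∈ derivedSeries H (m + 1) := derivedSeries_antitone H (by omega) hγ1
      have h4 : ⁅a, h⁻¹⁆ ∈ derivedSeries H (m + 1) := by
        rw [derivedSeries_succ]
        exact Subgroup.commutator_mem_commutator h2 (inv_mem h1)
      have h5 : ⁅a ^ 2, h⁆ ∈ derivedSeries H (m + 1) := by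
        rw [derivedSeries_succ]
        exact Subgroup.commutator_mem_commutator (pow_mem h2 2) h1
      have h6 := (derivedSeries_normal H (m + 1)).conj_mem _ h4 h
      have h7 : h = (⁅a ^ 2, h⁆)⁻¹ * (h * ⁅a, h⁻¹⁆ * h⁻¹)⁻¹ * γ := by
        rw [← heq, commutatorElement_def, commutatorElement_def]; group
      rw [h7]
      exact mul_mem (mul_mem (inv_mem h5) (inv_mem h6)) h3
  have hh := hmem (n + 1) le_rfl
  have hcomm : ∀ x ∈ derivedSeries H (n + 1), ∀ y ∈ derivedSeries H (n + 1), x * y = y * x := by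
    intro x hx y hy
    have h1 : ⁅x, y⁆ ∈ derivedSeries H (n + 2) := by
      rw [derivedSeries_succ]
      exact Subgroup.commutator_mem_commutator hx hy
    rw [hH, Subgroup.mem_bot, commutatorElement_eq_one_iff_mul_comm] at h1
    exact h1
  letI : CommGroup (derivedSeries H (n + 1)) :=
    { (inferInstance : Group (derivedSeries H (n + 1))) with
      mul_comm := fun x y => Subtype.ext (hcomm x x.2 y y.2) }
  have a6 : a ^ 6 = 1 := by rw [ha, ← map_pow, hG.g6, map_one]
  have hconj : ∀ j : ℕ, a ^ j * h * (a ^ j)⁻¹ ∈ derivedSeries H (n + 1) := fun j =>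
    (derivedSeries_normal H (n + 1)).conj_mem _ hh _
  set K : ℕ → derivedSeries H (n + 1) := fun j => ⟨a ^ j * h * (a ^ j)⁻¹, hconj j⟩ with hK
  have h1 := congrArg (Subtype.val) (comm_aux (K 0) (K 1) (K 2) (K 3) (K 4) (K 5))
  simp only [hK, Subgroup.coe_mul, Subgroup.coe_inv, Subgroup.coe_one] at h1
  -- powers of `γ`
  have hγc : ∀ j : ℕ, a ^ j * γ * (a ^ j)⁻¹ = γ ^ (3 ^ j) := by
    intro j
    induction j with
    | zero => simp
    | succ j ih =>
      have e1 : a ^ (j + 1) * γ * (a ^ (j + 1))⁻¹ = a * (a ^ j * γ * (a ^ j)⁻¹) * a⁻¹ := by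
        rw [pow_succ']; group
      have e2 : a * γ * a⁻¹ = γ ^ 3 := by
        rw [ha, hγ, ← map_inv, ← map_mul, ← map_mul, hG.rel, map_pow]
      rw [e1, ih, ← conj_pow, e2, ← pow_mul, pow_succ']
  have hK6 : a ^ 6 * h * (a ^ 6)⁻¹ = a ^ 0 * h * (a ^ 0)⁻¹ := by rw [a6]; simp
  have f : ∀ j : ℕ, (a ^ j * h * (a ^ j)⁻¹) * (a ^ (j + 1) * h * (a ^ (j + 1))⁻¹)⁻¹ *
      (a ^ (j + 2) * h * (a ^ (j + 2))⁻¹) = γ ^ (3 ^ j) := by
    intro j
    rw [← hγc, ← heq, pow_add, pow_add]
    group
  have f0 := f 0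
  have f1 := f 1
  have f3 := f 3
  have f4 := f 4
  norm_num only at f0 f1 f3 f4
  rw [hK6] at f4
  rw [f0, f1, f3, f4] at h1
  have h2 : γ ^ 104 = 1 := by
    have : γ ^ 81 * γ ^ 27 * (γ ^ 3)⁻¹ * (γ ^ 1)⁻¹ = γ ^ 104 := by group
    rw [← this]
    exact h1
  have h7 : γ ^ 7 = 1 := by rw [hγ, ← map_pow, hG.c7, map_one]
  have h3 : γ = 1 := by
    have e : γ ^ 105 = 1 := by
      rw [show 105 = 7 * 15 from rfl, pow_mul, h7, one_pow]
    calc γ = (γ ^ 104)⁻¹ * γ ^ 105 := by group
      _ = 1 := by rw [h2, e]; simp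
  apply hG.ne
  apply hi
  rw [← hγ, h3, map_one]

end Pool.Agent.Q98.Uni
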